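import Pool.Agent.W5h42.KD.Core

set_option autoImplicit false

/-! The scaled bump function. -/

open MeasureTheory Set

namespace Pool.Agent.W5h42.KD

variable {n : ℕ}

/-- the centre of the bump function -/
noncomputable def ctr (n : ℕ) : Z n := (0, 3 / 4)

/-- the bump function -/
noncomputable def bump (n : ℕ) : ContDiffBump (ctr n) where
  rIn := 1 / 16
  rOut := 1 / 8
  rIn_pos := by norm_num
  rIn_lt_rOut := by norm_num

theorem bump_test (n : ℕ) : IsTest (Metric.closedBall (ctr n) (1 / 8)) (bump n) := by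
  refine ⟨(bump n).contDiff, (bump n).hasCompactSupport, ?_⟩
  rw [(bump n).tsupport_eq]
  rfl

/-- the scaled bump function -/
noncomputable def sb (n : ℕ) {δ h : ℝ} (hδ : 0 < δ) (hh : 0 < h) (z : Z n) : ℝ :=
  bump n (sc n δ⁻¹ h⁻¹ (inv_ne_zero hδ.ne') (inv_ne_zero hh.ne') z)

theorem sb_test {δ h : ℝ} (hδ : 0 < δ) (hh : 0 < h) :
    IsTest (layer n δ (h / 2) h) (sb n hδ hh) := by
  apply (bump_test n).scale (inv_ne_zero hδ.ne') (inv_ne_zero hh.ne')
  intro z hz
  rw [sc_apply, Metric.mem_closedBall, Prod.dist_eq, max_le_iff] at hz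
  obtain ⟨h1, h2⟩ := hz
  have h1' : ‖δ⁻¹ • z.1‖ ≤ 1 / 8 := by
    have h3 : dist (δ⁻¹ • z.1) (ctr n).1 ≤ 1 / 8 := h1
    rwa [show (ctr n).1 = 0 from rfl, dist_zero_right] at h3
  have h2' : |h⁻¹ * z.2 - 3 / 4| ≤ 1 / 8 := by
    have h3 : dist (h⁻¹ * z.2) (ctr n).2 ≤ 1 / 8 := h2
    rwa [show (ctr n).2 = 3 / 4 from rfl, Real.dist_eq] at h3
  rw [norm_smul, norm_inv, Real.norm_eq_abs, abs_of_pos hδ] at h1'
  rw [abs_le] at h2'
  have e1 : h * (h⁻¹ * z.2) = z.2 := by field_simp
  have e2 : δ * (δ⁻¹ * ‖z.1‖) = ‖z.1‖ := by field_simp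
  refine ⟨?_, ?_, ?_⟩
  · rw [Metric.mem_ball, dist_zero_right, ← e2]
    nlinarith
  · rw [← e1]
    nlinarith
  · rw [← e1]
    nlinarith

theorem sb_nonneg {δ h : ℝ} (hδ : 0 < δ) (hh : 0 < h) (z : Z n) : 0 ≤ sb n hδ hh z :=
  (bump n).nonneg

theorem sb_integral {δ h : ℝ} (hδ : 0 < δ) (hh : 0 < h) (hhδ : h ≤ δ) :
    (1 / 8) ^ (n + 1) * (h * δ ^ n) ≤ ∫ z in layer n δ 0 δ, sb n hδ hh z := by
  have hT := sb_test (n := n) hδ hh
  have hi : Integrable (sb n hδ hh) := hT.smooth.continuous.integrable_of_hasCompactSupport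
    hT.compact
  set B : Set (Z n) := Metric.ball (0 : Fin n → ℝ) (δ / 16) ×ˢ Ioo (11 / 16 * h) (13 / 16 * h)
    with hB
  have hBm : MeasurableSet B := Metric.isOpen_ball.measurableSet.prod measurableSet_Ioo
  have hsub : B ⊆ layer n δ 0 δ := by
    apply prod_mono
    · exact Metric.ball_subset_ball (by linarith)
    · exact Ioo_subset_Ioo (by positivity) (by linarith)
  have hv : volume B = ENNReal.ofReal ((2 * (δ / 16)) ^ n) *
      ENNReal.ofReal (13 / 16 * h - 11 / 16 * h) := by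
    rw [hB, Measure.volume_eq_prod, Measure.prod_prod, Real.volume_Ioo,
      Real.volume_pi_ball _ (by positivity : 0 < δ / 16), Fintype.card_fin]
  have hv' : volume.real B = (1 / 8) ^ (n + 1) * (h * δ ^ n) := by
    rw [Measure.real, hv, ENNReal.toReal_mul, ENNReal.toReal_ofReal (by positivity),
      ENNReal.toReal_ofReal (by linarith), pow_succ]
    have e1 : 2 * (δ / 16) = 1 / 8 * δ := by ring
    rw [e1, mul_pow]
    ring
  have hfin : volume B ≠ ⊤ := by
    rw [hv]
    exact (ENNReal.mul_lt_top ENNReal.ofReal_lt_top ENNReal.ofReal_lt_top).ne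
  calc (1 / 8) ^ (n + 1) * (h * δ ^ n) = ∫ _ in B, (1 : ℝ) := by
        rw [setIntegral_const, smul_eq_mul, mul_one, hv']
    _ ≤ ∫ z in B, sb n hδ hh z := by
        apply setIntegral_mono_on (integrableOn_const hfin) hi.integrableOn hBm
        intro z hz
        have h1 : sb n hδ hh z = 1 := by
          apply (bump n).one_of_mem_closedBall
          rw [sc_apply, Metric.mem_closedBall, Prod.dist_eq, max_le_iff]
          have hz1 : ‖z.1‖ < δ / 16 := by
            have := hz.1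
            rwa [Metric.mem_ball, dist_zero_right] at this
          have hz2 := hz.2
          constructor
          · change dist (δ⁻¹ • z.1) 0 ≤ 1 / 16
            rw [dist_zero_right, norm_smul, norm_inv, Real.norm_eq_abs, abs_of_pos hδ,
              inv_mul_le_iff₀ hδ]
            linarith
          · change dist (h⁻¹ * z.2) (3 / 4) ≤ 1 / 16
            rw [Real.dist_eq, abs_le]
            have e1 : h⁻¹ * (11 / 16 * h) = 11 / 16 := by field_simp
            have e2 : h⁻¹ * (13 / 16 * h) = 13 / 16 := by field_simp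
            have k1 : h⁻¹ * (11 / 16 * h) ≤ h⁻¹ * z.2 :=
              mul_le_mul_of_nonneg_left hz2.1.le (inv_nonneg.2 hh.le)
            have k2 : h⁻¹ * z.2 ≤ h⁻¹ * (13 / 16 * h) :=
              mul_le_mul_of_nonneg_left hz2.2.le (inv_nonneg.2 hh.le)
            rw [e1] at k1
            rw [e2] at k2
            constructor <;> linarith
        rw [h1]
    _ ≤ ∫ z in layer n δ 0 δ, sb n hδ hh z :=
        setIntegral_mono_set hi.integrableOn
          (Filter.Eventually.of_forall fun z => sb_nonneg hδ hh z)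
          (Filter.Eventually.of_forall hsub)

/-- bounds for the derivatives of the bump function -/
theorem bump_bounds (n : ℕ) : ∃ C : ℝ, 1 ≤ C ∧
    (∀ w ∈ (insert ey (range ex) : Set (Z n)), ∀ z, |pd w (bump n) z| ≤ C ∧
      ‖fderiv ℝ (pd w (bump n)) z‖ ≤ C ∧
      ∀ a ∈ (insert ey (range ex) : Set (Z n)), |pd a (pd a (bump n)) z| ≤ C ∧
        |pd w (pd a (pd a (bump n))) z| ≤ C) := by
  have hfin : (insert ey (range ex) : Set (Z n)).Finite := (finite_range ex).insert _
  have h1 : ∀ q ∈ (insert ey (range ex) : Set (Z n)) ×ˢ (insert ey (range ex) : Set (Z n)),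
      ∃ C : ℝ, 0 ≤ C ∧ ∀ z, |pd q.1 (bump n) z| ≤ C ∧ ‖fderiv ℝ (pd q.1 (bump n)) z‖ ≤ C ∧
        |pd q.2 (pd q.2 (bump n)) z| ≤ C ∧ |pd q.1 (pd q.2 (pd q.2 (bump n))) z| ≤ C := by
    intro q _
    obtain ⟨C1, k1, l1⟩ := ((bump_test n).pd q.1).bound
    have t2 := (bump_test n).pd q.1
    obtain ⟨C2, l2⟩ := ((t2.smooth.fderiv_right (m := (⊤ : ℕ∞)) (by simp)).continuous).bounded_above_of_compact_support
      (t2.compact.fderiv ℝ)
    obtain ⟨C3, k3, l3⟩ := (((bump_test n).pd q.2).pd q.2).bound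
    obtain ⟨C4, k4, l4⟩ := ((((bump_test n).pd q.2).pd q.2).pd q.1).bound
    refine ⟨C1 + |C2| + C3 + C4, by positivity, fun z => ⟨?_, ?_, ?_, ?_⟩⟩
    · have := l1 z
      rw [Real.norm_eq_abs] at this
      linarith [abs_nonneg C2]
    · have := (l2 z).trans (le_abs_self C2)
      linarith
    · have := l3 z
      rw [Real.norm_eq_abs] at this
      linarith [abs_nonneg C2]
    · have := l4 z
      rw [Real.norm_eq_abs] at this
      linarith [abs_nonneg C2]
  choose! C hC using h1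
  have hfin2 := hfin.prod hfin
  obtain ⟨M, hM⟩ := (hfin2.image C).bddAbove
  refine ⟨max M 1, le_max_right _ _, fun w hw z => ?_⟩
  have hb : ∀ a ∈ (insert ey (range ex) : Set (Z n)), C (w, a) ≤ max M 1 := fun a ha =>
    (hM (mem_image_of_mem C (mk_mem_prod hw ha))).trans (le_max_left _ _)
  have hy : (ey : Z n) ∈ (insert ey (range ex) : Set (Z n)) := mem_insert _ _
  have k0 := (hC (w, ey) (mk_mem_prod hw hy)).2 z
  refine ⟨k0.1.trans (hb _ hy), k0.2.1.trans (hb _ hy), fun a ha => ?_⟩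
  have k1 := (hC (w, a) (mk_mem_prod hw ha)).2 z
  exact ⟨k1.2.2.1.trans (hb _ ha), k1.2.2.2.trans (hb _ ha)⟩

end Pool.Agent.W5h42.KD
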