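import Pool.Agent.W5h42.KD.Defs

set_option autoImplicit false

/-! Test functions and their scaling. -/

open MeasureTheory Set

namespace Pool.Agent.W5h42.KD

variable {n : ℕ} {F : Type} [NormedAddCommGroup F] [NormedSpace ℝ F]

theorem contDiff_pd {f : Z n → F} (hf : ContDiff ℝ (⊤ : ℕ∞) f) (v : Z n) :
    ContDiff ℝ (⊤ : ℕ∞) (pd v f) := by
  have h1 : ContDiff ℝ (⊤ : ℕ∞) (fderiv ℝ f) := hf.fderiv_right (by simp)
  exact h1.clm_apply contDiff_const

theorem tsupport_pd (f : Z n → F) (v : Z n) : tsupport (pd v f) ⊆ tsupport f :=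
  tsupport_fderiv_apply_subset ℝ v

theorem IsTest.pd {U : Set (Z n)} {f : Z n → F} (hf : IsTest U f) (v : Z n) :
    IsTest U (pd v f) :=
  ⟨contDiff_pd hf.smooth v, hf.compact.fderiv_apply ℝ v, (tsupport_pd f v).trans hf.supp⟩

theorem IsTest.bound {U : Set (Z n)} {f : Z n → F} (hf : IsTest U f) :
    ∃ C : ℝ, 0 ≤ C ∧ ∀ z, ‖f z‖ ≤ C := by
  obtain ⟨C, hC⟩ := hf.smooth.continuous.bounded_above_of_compact_support hf.compact
  exact ⟨max C 0, le_max_right _ _, fun z => (hC z).trans (le_max_left _ _)⟩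

/-- the scaling `(x, y) ↦ (a x, b y)` -/
noncomputable def sc (n : ℕ) (a b : ℝ) (ha : a ≠ 0) (hb : b ≠ 0) : Z n ≃L[ℝ] Z n :=
  (ContinuousLinearEquiv.smulLeft (Units.mk0 a ha)).prodCongr
    (ContinuousLinearEquiv.smulLeft (Units.mk0 b hb))

theorem sc_apply {a b : ℝ} (ha : a ≠ 0) (hb : b ≠ 0) (z : Z n) :
    sc n a b ha hb z = (a • z.1, b * z.2) := rfl

theorem sc_ex {a b : ℝ} (ha : a ≠ 0) (hb : b ≠ 0) (i : Fin n) : sc n a b ha hb (ex i) = a • ex i := by
  rw [sc_apply]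
  unfold ex
  simp

theorem sc_ey {a b : ℝ} (ha : a ≠ 0) (hb : b ≠ 0) : sc n a b ha hb ey = b • (ey : Z n) := by
  rw [sc_apply]
  unfold ey
  simp

theorem pd_smul (v : Z n) (c : ℝ) (f : Z n → F) (z : Z n) : pd (c • v) f z = c • pd v f z := by
  unfold pd
  rw [map_smul]

theorem pd_comp {a b : ℝ} (ha : a ≠ 0) (hb : b ≠ 0) {f : Z n → F} (hf : Differentiable ℝ f)
    (v z : Z n) : pd v (fun w => f (sc n a b ha hb w)) z =
      pd (sc n a b ha hb v) f (sc n a b ha hb z) := by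
  unfold pd
  have h1 : HasFDerivAt (fun w => f (sc n a b ha hb w))
      ((fderiv ℝ f (sc n a b ha hb z)).comp (sc n a b ha hb : Z n →L[ℝ] Z n)) z :=
    (hf _).hasFDerivAt.comp z (sc n a b ha hb : Z n →L[ℝ] Z n).hasFDerivAt
  rw [h1.fderiv]
  rfl

theorem pd_const_smul (c : ℝ) {f : Z n → F} (hf : Differentiable ℝ f) (v z : Z n) :
    pd v (fun w => c • f w) z = c • pd v f z := by
  unfold pd
  rw [fderiv_fun_const_smul (hf z)]
  rfl

theorem IsTest.scale {a b : ℝ} (ha : a ≠ 0) (hb : b ≠ 0) {U V : Set (Z n)} {f : Z n → F}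
    (hf : IsTest U f) (hUV : ∀ z, sc n a b ha hb z ∈ U → z ∈ V) :
    IsTest V (fun w => f (sc n a b ha hb w)) := by
  refine ⟨hf.smooth.comp (sc n a b ha hb).contDiff, ?_, ?_⟩
  · exact hf.compact.comp_homeomorph (sc n a b ha hb).toHomeomorph
  · have h1 : tsupport (fun w => f (sc n a b ha hb w)) =
        (sc n a b ha hb) ⁻¹' tsupport f :=
      tsupport_comp_eq_preimage f (sc n a b ha hb).toHomeomorph
    rw [h1]
    intro z hz
    exact hUV z (hf.supp hz)

/-- mixed second derivatives -/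
theorem pd_comm {f : Z n → ℝ} (hf : ContDiff ℝ (⊤ : ℕ∞) f) (v w z : Z n) :
    pd v (pd w f) z = pd w (pd v f) z := by
  have h1 : ContDiff ℝ (⊤ : ℕ∞) (fderiv ℝ f) := hf.fderiv_right (by simp)
  have h2 : ∀ v w : Z n, pd v (pd w f) z = fderiv ℝ (fderiv ℝ f) z v w := by
    intro v w
    unfold pd
    have h3 : HasFDerivAt (fun z => fderiv ℝ f z w)
        ((ContinuousLinearMap.apply ℝ ℝ w).comp (fderiv ℝ (fderiv ℝ f) z)) z :=
      (ContinuousLinearMap.apply ℝ ℝ w).hasFDerivAt.comp z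
        ((h1.differentiable (by simp)) z).hasFDerivAt
    rw [h3.fderiv]
    rfl
  rw [h2, h2]
  exact (hf.contDiffAt.isSymmSndFDerivAt (by
    rw [minSmoothness_of_isRCLikeNormedField]
    change ((2 : ℕ∞) : WithTop ℕ∞) ≤ ((⊤ : ℕ∞) : WithTop ℕ∞)
    exact WithTop.coe_le_coe.2 le_top)) v w

/-- differentiation of `rot` -/
theorem hasFDerivAt_rot (i : Fin n) {ψ : Z n → ℝ} (hf : ContDiff ℝ (⊤ : ℕ∞) ψ) (v z : Z n) :
    pd v (rot i ψ) z = (Pi.single i (pd v (pd ey ψ) z), -pd v (pd (ex i) ψ) z) := by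
  have h1 := (contDiff_pd hf (ey : Z n)).differentiable (by simp) z
  have h2 := (contDiff_pd hf (ex i : Z n)).differentiable (by simp) z
  have h3 : HasFDerivAt (rot i ψ)
      (((ContinuousLinearMap.single ℝ (fun _ : Fin n => ℝ) i).comp
        (fderiv ℝ (pd ey ψ) z)).prod (-fderiv ℝ (pd (ex i) ψ) z)) z := by
    apply HasFDerivAt.prodMk
    · exact (ContinuousLinearMap.single ℝ (fun _ : Fin n => ℝ) i).hasFDerivAt.comp z
        h1.hasFDerivAt
    · exact h2.hasFDerivAt.neg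
  have h4 : pd v (rot i ψ) z = fderiv ℝ (rot i ψ) z v := rfl
  rw [h4, h3.fderiv]
  rfl

theorem rot_zero (i : Fin n) {ψ : Z n → ℝ} {z : Z n} (hz : z ∉ tsupport ψ) : rot i ψ z = 0 := by
  have h1 : ∀ v : Z n, pd v ψ z = 0 := fun v => image_eq_zero_of_notMem_tsupport
    (fun hc => hz (tsupport_pd ψ v hc))
  unfold rot
  rw [h1, h1]
  simp

theorem isTest_rot (i : Fin n) {U : Set (Z n)} {ψ : Z n → ℝ} (hψ : IsTest U ψ) :
    IsTest U (rot i ψ) ∧ (∀ z, div (rot i ψ) z = 0) ∧ tsupport (rot i ψ) ⊆ tsupport ψ := by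
  have hsub : tsupport (rot i ψ) ⊆ tsupport ψ := by
    apply closure_minimal _ (isClosed_tsupport ψ)
    intro z hz
    by_contra hc
    exact hz (rot_zero i hc)
  refine ⟨⟨?_, hψ.compact.of_isClosed_subset (isClosed_tsupport _) hsub,
    hsub.trans hψ.supp⟩, fun z => ?_, hsub⟩
  · apply ContDiff.prodMk
    · exact (ContinuousLinearMap.single ℝ (fun _ : Fin n => ℝ) i).contDiff.comp
        (contDiff_pd hψ.smooth _)
    · exact (contDiff_pd hψ.smooth _).neg
  · unfold div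
    have h1 : ∀ j : Fin n, (pd (ex j) (rot i ψ) z).1 j =
        Pi.single (M := fun _ : Fin n => ℝ) i (pd (ex i) (pd ey ψ) z) j := by
      intro j
      rw [hasFDerivAt_rot i hψ.smooth]
      by_cases hj : j = i
      · subst hj
        simp
      · simp [Pi.single_eq_of_ne hj]
    rw [Finset.sum_congr rfl fun j _ => h1 j, Finset.sum_pi_single' , hasFDerivAt_rot i hψ.smooth,
      pd_comm hψ.smooth (ex i) ey]
    simp

end Pool.Agent.W5h42.KD
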