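import Pool.Agent.W5h42.KD.Hardy
import Pool.Agent.W5h42.KD.Test

set_option autoImplicit false

/-! The weak formulation tested with one field. -/

open MeasureTheory Set

namespace Pool.Agent.W5h42.KD

variable {n : ℕ}

theorem abs_dot_le (a b : Z n) : |dot a b| ≤ (n + 1) * (‖a‖ * ‖b‖) := by
  unfold dot
  have h1 : ∀ i : Fin n, |a.1 i * b.1 i| ≤ ‖a‖ * ‖b‖ := by
    intro i
    rw [abs_mul]
    have h2 : |a.1 i| ≤ ‖a‖ := (norm_le_pi_norm a.1 i).trans (norm_fst_le a)
    have h3 : |b.1 i| ≤ ‖b‖ := (norm_le_pi_norm b.1 i).trans (norm_fst_le b)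
    exact mul_le_mul h2 h3 (abs_nonneg _) (norm_nonneg _)
  have h4 : |a.2 * b.2| ≤ ‖a‖ * ‖b‖ := by
    rw [abs_mul]
    exact mul_le_mul (norm_snd_le a) (norm_snd_le b) (abs_nonneg _) (norm_nonneg _)
  calc |∑ i, a.1 i * b.1 i + a.2 * b.2| ≤ |∑ i, a.1 i * b.1 i| + |a.2 * b.2| := abs_add_le _ _
    _ ≤ ∑ i, |a.1 i * b.1 i| + |a.2 * b.2| := by
        gcongr
        exact Finset.abs_sum_le_sum_abs _ _
    _ ≤ ∑ _i : Fin n, ‖a‖ * ‖b‖ + ‖a‖ * ‖b‖ := by
        gcongr with i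
        exact h1 i
    _ = (n + 1) * (‖a‖ * ‖b‖) := by
        rw [Finset.sum_const, Finset.card_univ, Fintype.card_fin, nsmul_eq_mul]
        ring

theorem volume_dom {T δ a b : ℝ} (hT : 0 ≤ T) (hδ : 0 < δ) (hab : a ≤ b) :
    volume.real (dom n T δ a b) = T * (2 * δ) ^ n * (b - a) := by
  have h1 : volume (dom n T δ a b) = ENNReal.ofReal T * ENNReal.ofReal ((2 * δ) ^ n) *
      ENNReal.ofReal (b - a) := by
    unfold dom
    rw [Measure.volume_eq_prod, Measure.prod_prod, Measure.volume_eq_prod, Measure.prod_prod,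
      Real.volume_Ioo, Real.volume_Ioo, sub_zero, Real.volume_pi_ball _ hδ, Fintype.card_fin]
  rw [Measure.real, h1, ENNReal.toReal_mul, ENNReal.toReal_mul, ENNReal.toReal_ofReal hT,
    ENNReal.toReal_ofReal (by positivity), ENNReal.toReal_ofReal (by linarith)]

theorem volume_dom_lt (T δ a b : ℝ) : volume (dom n T δ a b) < ⊤ := by
  by_cases hδ : 0 < δ
  · unfold dom
    rw [Measure.volume_eq_prod, Measure.prod_prod, Measure.volume_eq_prod, Measure.prod_prod,
      Real.volume_Ioo, Real.volume_Ioo, Real.volume_pi_ball _ hδ]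
    exact ENNReal.mul_lt_top (ENNReal.mul_lt_top ENNReal.ofReal_lt_top ENNReal.ofReal_lt_top)
      ENNReal.ofReal_lt_top
  · unfold dom
    rw [Metric.ball_eq_empty.2 (not_lt.1 hδ)]
    simp

/-- integration of a quadratic bound over a layer -/
theorem quad_bound {T δ a b A B ε : ℝ} (hε : 0 < ε) {s F : ST n → ℝ}
    (hs : IntegrableOn (fun p => s p ^ 2) (dom n T δ a b))
    (hF : ∀ᵐ p ∂(volume.restrict (dom n T δ a b)), |F p| ≤ A * s p ^ 2 + B * s p) :
    |∫ p in dom n T δ a b, F p| ≤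
      (A + ε) * (∫ p in dom n T δ a b, s p ^ 2) +
        B ^ 2 / (4 * ε) * volume.real (dom n T δ a b) := by
  have hc : IntegrableOn (fun _ : ST n => B ^ 2 / (4 * ε)) (dom n T δ a b) :=
    integrableOn_const (volume_dom_lt T δ a b).ne
  have h1 : IntegrableOn (fun p => (A + ε) * s p ^ 2 + B ^ 2 / (4 * ε)) (dom n T δ a b) :=
    (hs.const_mul _).add hc
  have h2 : ‖∫ p in dom n T δ a b, F p‖ ≤
      ∫ p in dom n T δ a b, ((A + ε) * s p ^ 2 + B ^ 2 / (4 * ε)) := by
    apply norm_integral_le_of_norm_le h1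
    filter_upwards [hF] with p hp
    rw [Real.norm_eq_abs]
    refine hp.trans ?_
    have h3 : B * s p ≤ ε * s p ^ 2 + B ^ 2 / (4 * ε) := by
      have h4 : ε * s p ^ 2 + B ^ 2 / (4 * ε) - B * s p = (2 * ε * s p - B) ^ 2 / (4 * ε) := by
        field_simp
        ring
      have h5 : 0 ≤ (2 * ε * s p - B) ^ 2 / (4 * ε) := by positivity
      linarith
    linarith
  rw [Real.norm_eq_abs] at h2
  refine h2.trans (le_of_eq ?_)
  rw [integral_add (hs.const_mul _) hc, integral_const_mul, setIntegral_const, smul_eq_mul]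
  ring

theorem aestronglyMeasurable_sqrt {δ T : ℝ} {u g : ST n → Z n} {u0 uT : Z n → Z n}
    (H : WeakTraj n δ T u g u0 uT) : IntegrableOn (fun p => Real.sqrt (dot (u p) (u p)) ^ 2)
      (dom n T δ 0 δ) := by
  refine H.sq_u.congr (Filter.Eventually.of_forall fun p => ?_)
  simp only
  rw [Real.sq_sqrt (dot_nonneg _)]

/-- the weak formulation of a null trajectory, tested with `φ` -/
theorem core {δ T : ℝ} {u g : ST n → Z n} {u0 : Z n → Z n}
    (H : WeakTraj n δ T u g u0 0) {a b A B ε : ℝ} (ha : 0 ≤ a) (hb : b ≤ δ)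
    (hε : 0 < ε) {φ : Z n → Z n} (hφ : IsTest (layer n δ a b) φ)
    (hdiv : ∀ z, div φ z = 0)
    (h1 : ∀ v z, |dot v (pd v φ z)| ≤ A * dot v v)
    (h2 : ∀ v z, |dot v (lap φ z)| ≤ B * Real.sqrt (dot v v)) :
    |∫ z in layer n δ 0 δ, dot (u0 z) (φ z)| ≤
      (A + ε) * (∫ p in dom n T δ a b, dot (u p) (u p)) +
        B ^ 2 / (4 * ε) * volume.real (dom n T δ a b) := by
  have hlay : layer n δ a b ⊆ layer n δ 0 δ := prod_mono le_rfl (Ioo_subset_Ioo ha hb)
  have hm := H.momentum φ ⟨hφ.smooth, hφ.compact, hφ.supp.trans hlay⟩ hdiv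
  have h0 : ∫ z in layer n δ 0 δ, dot ((0 : Z n → Z n) z) (φ z) = 0 := by
    have h3 : ∀ z, dot ((0 : Z n → Z n) z) (φ z) = 0 := fun z => by simp [dot]
    simp only [h3, integral_zero]
  rw [h0, zero_sub] at hm
  rw [← abs_neg, hm]
  have hsub : dom n T δ a b ⊆ dom n T δ 0 δ := dom_mono ha hb
  -- the support
  have hzero : ∀ z, z ∉ layer n δ a b → (∀ v, pd v φ z = 0) ∧ lap φ z = 0 := by
    intro z hz
    have hz' : z ∉ tsupport φ := fun hc => hz (hφ.supp hc)
    have k1 : ∀ v, pd v φ z = 0 := fun v => image_eq_zero_of_notMem_tsupport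
      (fun hc => hz' (tsupport_pd φ v hc))
    have k2 : ∀ v, pd v (pd v φ) z = 0 := fun v => image_eq_zero_of_notMem_tsupport
      (fun hc => hz' (tsupport_pd φ v (tsupport_pd (pd v φ) v hc)))
    refine ⟨k1, ?_⟩
    unfold lap
    rw [Finset.sum_eq_zero fun i _ => k2 _, k2, add_zero]
  have e1 : ∫ p in dom n T δ 0 δ, (dot (u p) (pd (u p) φ (pos p)) + dot (u p) (lap φ (pos p))) =
      ∫ p in dom n T δ a b, (dot (u p) (pd (u p) φ (pos p)) + dot (u p) (lap φ (pos p))) := by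
    apply setIntegral_eq_of_subset_of_forall_sdiff_eq_zero (measurableSet_dom T δ 0 δ) hsub
    rintro p ⟨hp1, hp2⟩
    have hp3 : pos p ∉ layer n δ a b := by
      intro hc
      apply hp2
      exact ⟨⟨hp1.1.1, hc.1⟩, hc.2⟩
    obtain ⟨k1, k2⟩ := hzero _ hp3
    rw [k1, k2]
    simp [dot]
  rw [e1]
  have hs := (aestronglyMeasurable_sqrt H).mono_set hsub
  have h4 := quad_bound (A := A) (B := B) (ε := ε)
    (F := fun p => dot (u p) (pd (u p) φ (pos p)) + dot (u p) (lap φ (pos p))) hε hs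
    (Filter.Eventually.of_forall fun p => by
      rw [Real.sq_sqrt (dot_nonneg _)]
      exact (abs_add_le _ _).trans (add_le_add (h1 _ _) (h2 _ _)))
  simp only [Real.sq_sqrt (dot_nonneg _)] at h4
  exact h4

end Pool.Agent.W5h42.KD
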