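import Mathlib

set_option autoImplicit false

/-! Weak trajectories of the Navier-Stokes equations next to a flat no-slip wall: definitions.
Space has `n + 1` dimensions; its points are `(x, y)` with `x` in `ℝ^n` and `y` the distance to the
wall. The points of space-time are `((t, x), y)`. -/

open MeasureTheory Set

namespace Pool.Agent.W5h42.KD

/-- the points of space, and the vectors: `n` tangential components and the normal one -/
abbrev Z (n : ℕ) : Type := (Fin n → ℝ) × ℝ

/-- the points `((t, x), y)` of space-time -/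
abbrev ST (n : ℕ) : Type := (ℝ × (Fin n → ℝ)) × ℝ

/-- the position of a point of space-time -/
def pos {n : ℕ} (p : ST n) : Z n := (p.1.2, p.2)

/-- the euclidean inner product -/
def dot {n : ℕ} (a b : Z n) : ℝ := ∑ i, a.1 i * b.1 i + a.2 * b.2

/-- the unit vector of the `i`-th tangential direction -/
def ex {n : ℕ} (i : Fin n) : Z n := (Pi.single i 1, 0)

/-- the unit normal vector -/
def ey {n : ℕ} : Z n := (0, 1)

/-- the derivative in the direction `v` -/
noncomputable def pd {n : ℕ} {F : Type} [NormedAddCommGroup F] [NormedSpace ℝ F] (v : Z n)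
    (f : Z n → F) (z : Z n) : F := fderiv ℝ f z v

/-- the Laplacian -/
noncomputable def lap {n : ℕ} {F : Type} [NormedAddCommGroup F] [NormedSpace ℝ F]
    (f : Z n → F) (z : Z n) : F := ∑ i, pd (ex i) (pd (ex i) f) z + pd ey (pd ey f) z

/-- the divergence -/
noncomputable def div {n : ℕ} (φ : Z n → Z n) (z : Z n) : ℝ :=
  ∑ i, (pd (ex i) φ z).1 i + (pd ey φ z).2

/-- the layer `|x_i| < δ`, `a < y < b` -/
def layer (n : ℕ) (δ a b : ℝ) : Set (Z n) := Metric.ball (0 : Fin n → ℝ) δ ×ˢ Ioo a b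

/-- the times in `(0, T)` and the positions in the layer -/
def dom (n : ℕ) (T δ a b : ℝ) : Set (ST n) :=
  (Ioo 0 T ×ˢ Metric.ball (0 : Fin n → ℝ) δ) ×ˢ Ioo a b

/-- smooth functions with compact support in `U` -/
structure IsTest {n : ℕ} {F : Type} [NormedAddCommGroup F] [NormedSpace ℝ F] (U : Set (Z n))
    (f : Z n → F) : Prop where
  smooth : ContDiff ℝ (⊤ : ℕ∞) f
  compact : HasCompactSupport f
  supp : tsupport f ⊆ U

/-- `u` is the velocity of a weak trajectory on `[0, T]` in the box `|x_i| < δ`, `0 < y < δ` whose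
side `y = 0` is a no-slip wall, with initial value `u0` and final value `uT`: `u` and its normal
derivative `g` are square integrable, `u` vanishes at the wall (for almost all `t, x` it is the
integral of `g` from the wall), and the Navier-Stokes equations with unit viscosity hold, tested with
the solenoidal fields with compact support in the box. -/
structure WeakTraj (n : ℕ) (δ T : ℝ) (u g : ST n → Z n) (u0 uT : Z n → Z n) : Prop where
  meas_u : AEStronglyMeasurable u (volume.restrict (dom n T δ 0 δ))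
  meas_g : AEStronglyMeasurable g (volume.restrict (dom n T δ 0 δ))
  sq_u : IntegrableOn (fun p => dot (u p) (u p)) (dom n T δ 0 δ)
  sq_g : IntegrableOn (fun p => dot (g p) (g p)) (dom n T δ 0 δ)
  noslip : ∀ᵐ q : ℝ × (Fin n → ℝ), q ∈ Ioo 0 T ×ˢ Metric.ball (0 : Fin n → ℝ) δ →
    ∀ y ∈ Ioo 0 δ, u (q, y) = ∫ s in Ioo 0 y, g (q, s)
  momentum : ∀ φ : Z n → Z n, IsTest (layer n δ 0 δ) φ → (∀ z, div φ z = 0) →
    (∫ z in layer n δ 0 δ, dot (uT z) (φ z)) - ∫ z in layer n δ 0 δ, dot (u0 z) (φ z) =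
      ∫ p in dom n T δ 0 δ, (dot (u p) (pd (u p) φ (pos p)) + dot (u p) (lap φ (pos p)))

/-- the solenoidal field `∂_y ψ e_i - ∂_i ψ e_y`; the integral of its inner product with `u` is that
of `ψ ω_i`, where `ω_i = ∂_i u_y - ∂_y u_i` is a component of the vorticity -/
noncomputable def rot {n : ℕ} (i : Fin n) (ψ : Z n → ℝ) (z : Z n) : Z n :=
  (Pi.single i (pd ey ψ z), -pd (ex i) ψ z)

/-- the component `ω_i` of the vorticity of `u0` is at least `a` in the box, in the sense of
distributions -/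
def VortGE {n : ℕ} (δ : ℝ) (i : Fin n) (a : ℝ) (u0 : Z n → Z n) : Prop :=
  ∀ ψ : Z n → ℝ, IsTest (layer n δ 0 δ) ψ → (∀ z, 0 ≤ ψ z) →
    a * ∫ z in layer n δ 0 δ, ψ z ≤ ∫ z in layer n δ 0 δ, dot (u0 z) (rot i ψ z)

/-- `W` is the rotation tensor `∇u - (∇u)ᵀ` of `u` (so `W v = ∂_v u - ∇ (u · v)` for constant `v`, and
`W u = u · ∇ u - ∇ |u|² / 2`), with norm at most `K` in the layer `h / 2 < y < h`, and the
Navier-Stokes equations in the form `u_t + W u + ∇ P = Δ u`, `P = p + |u|² / 2`, hold in the sense of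
distributions. -/
structure LambTraj (n : ℕ) (δ T h K : ℝ) (u : ST n → Z n) (W : ST n → Z n →L[ℝ] Z n)
    (u0 uT : Z n → Z n) : Prop where
  meas : AEStronglyMeasurable W (volume.restrict (dom n T δ 0 δ))
  rotation : ∀ (θ : ℝ → ℝ) (ψ : Z n → ℝ), Continuous θ → IsTest (layer n δ 0 δ) ψ →
    ∀ v w : Z n, ∫ p in dom n T δ 0 δ, θ p.1.1 * (ψ (pos p) * dot (W p v) w) =
      ∫ p in dom n T δ 0 δ,
        θ p.1.1 * (dot (u p) v * pd w ψ (pos p) - dot (u p) w * pd v ψ (pos p))
  bound : ∀ᵐ p : ST n, p ∈ dom n T δ (h / 2) h →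
    ∀ v : Z n, dot (W p v) (W p v) ≤ K ^ 2 * dot v v
  momentum : ∀ φ : Z n → Z n, IsTest (layer n δ 0 δ) φ → (∀ z, div φ z = 0) →
    (∫ z in layer n δ 0 δ, dot (uT z) (φ z)) - ∫ z in layer n δ 0 δ, dot (u0 z) (φ z) =
      ∫ p in dom n T δ 0 δ, (dot (u p) (lap φ (pos p)) - dot (W p (u p)) (φ (pos p)))

end Pool.Agent.W5h42.KD
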