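import Pool.Agent.W5h42.KD.Rot

/-! MP_79abb3_an: for every weak null control trajectory, however controlled, a lower bound for the
dissipation due to the normal derivative in a layer of width `h` next to a flat no-slip wall, in all
dimensions (space is `ℝ^n × ℝ`, so `n = 1, 2` are the dimensions 2 and 3 of the problem).
The definitions are in `Pool/Agent/W5h42/KD/Defs.lean`. -/

set_option autoImplicit false

open MeasureTheory Set

namespace Pool.Agent.W5h42.KD.FlatWall

open Pool.Agent.W5h42.KD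

/-- (1) A weak trajectory on `[0, T]` with final value zero, from an initial value with a component of
the vorticity at least `a` near the wall, has in the layer of width `h` a dissipation of the normal
derivative of at least `c a² h⁵ δⁿ / (a h⁴ + T)`, and the energy integral of its outer half is at least
`c a² h⁷ δⁿ / (a h⁴ + T)`.
(2) If the norm of the rotation tensor is at most `K` in the outer half of the layer, and
`C K T ≤ a h²`, the bounds are `a² h δⁿ / (C K² T)` and `a² h³ δⁿ / (C K² T)`.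
(3) If the initial value is not orthogonal to all the solenoidal test fields in the layer, then these
dissipations have a positive lower bound common to all `T` in `(0, 1]` and all the trajectories. -/
theorem result (n : ℕ) :
    (∃ c : ℝ, 0 < c ∧ ∀ (i : Fin n) {δ T h a : ℝ}, 0 < T → 0 < h → h ≤ δ → 0 < a →
      ∀ {u g : ST n → Z n} {u0 : Z n → Z n}, WeakTraj n δ T u g u0 0 → VortGE δ i a u0 →
      c * (a ^ 2 * h ^ 7 * δ ^ n) ≤
        (a * h ^ 4 + T) * ∫ p in dom n T δ (h / 2) h, dot (u p) (u p) ∧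
      c * (a ^ 2 * h ^ 5 * δ ^ n) ≤
        (a * h ^ 4 + T) * ∫ p in dom n T δ 0 h, dot (g p) (g p)) ∧
    (∃ C : ℝ, 0 < C ∧ ∀ (i : Fin n) {δ T h a K : ℝ}, 0 < T → 0 < h → h ≤ δ → 0 < a → 0 < K →
      ∀ {u g : ST n → Z n} {W : ST n → Z n →L[ℝ] Z n} {u0 : Z n → Z n},
      WeakTraj n δ T u g u0 0 → LambTraj n δ T h K u W u0 0 → VortGE δ i a u0 →
      C * (K * T) ≤ a * h ^ 2 →
      a ^ 2 * h ^ 3 * δ ^ n ≤
        C * (K ^ 2 * T) * ∫ p in dom n T δ (h / 2) h, dot (u p) (u p) ∧
      a ^ 2 * h * δ ^ n ≤ C * (K ^ 2 * T) * ∫ p in dom n T δ 0 h, dot (g p) (g p)) ∧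
    ∀ {δ h : ℝ}, 0 < h → h ≤ δ → ∀ {u0 φ : Z n → Z n}, IsTest (layer n δ 0 h) φ →
      (∀ z, div φ z = 0) → ∫ z in layer n δ 0 δ, dot (u0 z) (φ z) ≠ 0 →
      ∃ c : ℝ, 0 < c ∧ ∀ T : ℝ, 0 < T → T ≤ 1 → ∀ u g : ST n → Z n, WeakTraj n δ T u g u0 0 →
        c ≤ ∫ p in dom n T δ 0 h, dot (g p) (g p) :=
  ⟨dissip n, rotational n, fun hh hhδ _ _ hφ hdiv h0 => qual hh hhδ hφ hdiv h0⟩

end Pool.Agent.W5h42.KD.FlatWall
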