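import Pool.Agent.W5h42.KD.Defs

set_option autoImplicit false

/-! The inequality of Hardy type near a no-slip wall. -/

open MeasureTheory Set

namespace Pool.Agent.W5h42.KD

variable {n : ℕ}

theorem dot_self (a : Z n) : dot a a = ∑ i, a.1 i ^ 2 + a.2 ^ 2 := by
  unfold dot
  simp only [sq]

theorem dot_nonneg (a : Z n) : 0 ≤ dot a a := by
  rw [dot_self]
  positivity

theorem sq_fst_le (a : Z n) (i : Fin n) : a.1 i ^ 2 ≤ dot a a := by
  rw [dot_self]
  have h1 : a.1 i ^ 2 ≤ ∑ j, a.1 j ^ 2 :=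
    Finset.single_le_sum (f := fun j => a.1 j ^ 2) (fun j _ => sq_nonneg _) (Finset.mem_univ i)
  nlinarith [sq_nonneg a.2]

theorem sq_snd_le (a : Z n) : a.2 ^ 2 ≤ dot a a := by
  rw [dot_self]
  have h1 : 0 ≤ ∑ j, a.1 j ^ 2 := Finset.sum_nonneg fun j _ => sq_nonneg _
  linarith

theorem norm_le_sqrt (a : Z n) : ‖a‖ ≤ Real.sqrt (dot a a) := by
  have h1 : ∀ x : ℝ, x ^ 2 ≤ dot a a → |x| ≤ Real.sqrt (dot a a) := fun x hx =>
    Real.abs_le_sqrt hx
  rw [Prod.norm_def, max_le_iff]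
  constructor
  · rw [pi_norm_le_iff_of_nonneg (Real.sqrt_nonneg _)]
    intro i
    exact h1 _ (sq_fst_le a i)
  · exact h1 _ (sq_snd_le a)

theorem norm_sq_le (a : Z n) : ‖a‖ ^ 2 ≤ dot a a := by
  have h1 := norm_le_sqrt a
  calc ‖a‖ ^ 2 ≤ Real.sqrt (dot a a) ^ 2 := by gcongr
    _ = dot a a := Real.sq_sqrt (dot_nonneg a)

theorem cs {f : ℝ → ℝ} {y : ℝ} (hy : 0 < y)
    (hf : AEStronglyMeasurable f (volume.restrict (Ioo 0 y)))
    (h2 : IntegrableOn (fun s => f s ^ 2) (Ioo 0 y)) :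
    (∫ s in Ioo 0 y, f s) ^ 2 ≤ y * ∫ s in Ioo 0 y, f s ^ 2 := by
  have h1 : IntegrableOn f (Ioo 0 y) := by
    have hc : IntegrableOn (fun _ : ℝ => (1 : ℝ)) (Ioo 0 y) := by
      simp
    refine Integrable.mono' (hc.add h2) hf (Filter.Eventually.of_forall fun s => ?_)
    simp only [Pi.add_apply, Real.norm_eq_abs]
    rw [abs_le]
    constructor <;> nlinarith [sq_nonneg (f s - 1), sq_nonneg (f s + 1)]
  set A := ∫ s in Ioo 0 y, f s with hA
  set m := A / y with hm
  have hv : volume.real (Ioo 0 y) = y := by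
    rw [Real.volume_real_Ioo_of_le hy.le, sub_zero]
  have h3 : ∫ s in Ioo 0 y, (f s - m) ^ 2 = (∫ s in Ioo 0 y, f s ^ 2) - 2 * m * A + m ^ 2 * y := by
    have e1 : ∀ s, (f s - m) ^ 2 = f s ^ 2 - 2 * m * f s + m ^ 2 := fun s => by ring
    simp only [e1]
    have hi2 : IntegrableOn (fun s => 2 * m * f s) (Ioo 0 y) := h1.const_mul _
    have hi3 : IntegrableOn (fun _ : ℝ => m ^ 2) (Ioo 0 y) := by
      simp
    have hi4 : IntegrableOn (fun s => f s ^ 2 - 2 * m * f s) (Ioo 0 y) := h2.sub hi2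
    rw [integral_add hi4 hi3, integral_sub h2 hi2, integral_const_mul, setIntegral_const,
      hv, smul_eq_mul]
    ring
  have h4 : 0 ≤ ∫ s in Ioo 0 y, (f s - m) ^ 2 :=
    integral_nonneg fun s => sq_nonneg _
  rw [h3] at h4
  have h5 : m * y = A := by
    rw [hm]
    field_simp
  have h6 : m ^ 2 * y = m * A := by rw [sq, mul_assoc, h5]
  have h7 : A ^ 2 = y * (m * A) := by
    rw [← h5]
    ring
  rw [h7]
  apply mul_le_mul_of_nonneg_left _ hy.le
  linarith [h4, h6]

theorem dot_integral {g : ℝ → Z n} {y : ℝ} (hy : 0 < y)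
    (hf : AEStronglyMeasurable g (volume.restrict (Ioo 0 y)))
    (h2 : IntegrableOn (fun s => dot (g s) (g s)) (Ioo 0 y)) :
    dot (∫ s in Ioo 0 y, g s) (∫ s in Ioo 0 y, g s) ≤ y * ∫ s in Ioo 0 y, dot (g s) (g s) := by
  by_cases hg : IntegrableOn g (Ioo 0 y)
  · have hi : ∀ i : Fin n, IntegrableOn (fun s => (g s).1 i ^ 2) (Ioo 0 y) := by
      intro i
      refine Integrable.mono' h2 ?_ (Filter.Eventually.of_forall fun s => ?_)
      · have hc : Continuous fun z : Z n => z.1 i ^ 2 := by fun_prop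
        exact hc.comp_aestronglyMeasurable hf
      · rw [Real.norm_eq_abs, abs_of_nonneg (sq_nonneg _)]
        exact sq_fst_le _ i
    have hs : IntegrableOn (fun s => (g s).2 ^ 2) (Ioo 0 y) := by
      refine Integrable.mono' h2 ?_ (Filter.Eventually.of_forall fun s => ?_)
      · have hc : Continuous fun z : Z n => z.2 ^ 2 := by fun_prop
        exact hc.comp_aestronglyMeasurable hf
      · rw [Real.norm_eq_abs, abs_of_nonneg (sq_nonneg _)]
        exact sq_snd_le _
    have e1 : ∀ i : Fin n, (∫ s in Ioo 0 y, g s).1 i = ∫ s in Ioo 0 y, (g s).1 i := by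
      intro i
      have h3 := ContinuousLinearMap.integral_comp_comm
        ((ContinuousLinearMap.proj (R := ℝ) (φ := fun _ : Fin n => ℝ) i).comp
          (ContinuousLinearMap.fst ℝ (Fin n → ℝ) ℝ)) hg
      exact h3.symm
    have e2 : (∫ s in Ioo 0 y, g s).2 = ∫ s in Ioo 0 y, (g s).2 := by
      have h3 := ContinuousLinearMap.integral_comp_comm
        (ContinuousLinearMap.snd ℝ (Fin n → ℝ) ℝ) hg
      exact h3.symm
    have e3 : ∫ s in Ioo 0 y, dot (g s) (g s) =
        ∑ i, (∫ s in Ioo 0 y, (g s).1 i ^ 2) + ∫ s in Ioo 0 y, (g s).2 ^ 2 := by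
      simp only [dot_self]
      rw [integral_add (integrable_finsetSum _ fun i _ => hi i) hs,
        integral_finsetSum _ fun i _ => hi i]
    rw [e3, dot_self, e2, mul_add, Finset.mul_sum]
    apply add_le_add
    · apply Finset.sum_le_sum
      intro i _
      rw [e1]
      refine cs hy ?_ (hi i)
      have hc : Continuous fun z : Z n => z.1 i := by fun_prop
      exact hc.comp_aestronglyMeasurable hf
    · refine cs hy ?_ hs
      exact continuous_snd.comp_aestronglyMeasurable hf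
  · rw [integral_undef hg]
    have h0 : dot (0 : Z n) 0 = 0 := by simp [dot]
    rw [h0]
    exact mul_nonneg hy.le (integral_nonneg fun s => dot_nonneg _)

theorem dom_mono {T δ a b a' b' : ℝ} (ha : a' ≤ a) (hb : b ≤ b') :
    dom n T δ a b ⊆ dom n T δ a' b' := by
  unfold dom
  exact prod_mono le_rfl (Ioo_subset_Ioo ha hb)

theorem measurableSet_dom (T δ a b : ℝ) : MeasurableSet (dom n T δ a b) :=
  (measurableSet_Ioo.prod Metric.isOpen_ball.measurableSet).prod measurableSet_Ioo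

theorem hardy {δ T : ℝ} {u g : ST n → Z n} {u0 uT : Z n → Z n} (H : WeakTraj n δ T u g u0 uT)
    {h : ℝ} (hh : 0 < h) (hhδ : h ≤ δ) :
    ∫ p in dom n T δ 0 h, dot (u p) (u p) ≤ h ^ 2 * ∫ p in dom n T δ 0 h, dot (g p) (g p) := by
  have hsub : dom n T δ 0 h ⊆ dom n T δ 0 δ := dom_mono le_rfl hhδ
  have iu := H.sq_u.mono_set hsub
  have ig := H.sq_g.mono_set hsub
  have mg : AEStronglyMeasurable g (volume.restrict (dom n T δ 0 h)) :=
    H.meas_g.mono_measure (Measure.restrict_mono hsub le_rfl)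
  set S : Set (ℝ × (Fin n → ℝ)) := Ioo 0 T ×ˢ Metric.ball (0 : Fin n → ℝ) δ with hS
  have hSm : MeasurableSet S := measurableSet_Ioo.prod Metric.isOpen_ball.measurableSet
  have hd : dom n T δ 0 h = S ×ˢ Ioo 0 h := rfl
  rw [hd] at iu ig mg ⊢
  have iu' : IntegrableOn (fun p : ST n => dot (u p) (u p)) (S ×ˢ Ioo 0 h)
    ((volume : Measure (ℝ × (Fin n → ℝ))).prod (volume : Measure ℝ)) := iu
  have ig' : IntegrableOn (fun p : ST n => dot (g p) (g p)) (S ×ˢ Ioo 0 h)
    ((volume : Measure (ℝ × (Fin n → ℝ))).prod (volume : Measure ℝ)) := ig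
  have e1 := setIntegral_prod (fun p : ST n => dot (u p) (u p)) iu'
  have e2 := setIntegral_prod (fun p : ST n => dot (g p) (g p)) ig'
  have e1' : ∫ p in S ×ˢ Ioo 0 h, dot (u p) (u p) =
      ∫ q in S, ∫ y in Ioo 0 h, dot (u (q, y)) (u (q, y)) := e1
  have e2' : ∫ p in S ×ˢ Ioo 0 h, dot (g p) (g p) =
      ∫ q in S, ∫ y in Ioo 0 h, dot (g (q, y)) (g (q, y)) := e2
  rw [e1', e2', ← integral_const_mul]
  have iu2 : Integrable (fun p : ST n => dot (u p) (u p))
      ((volume.restrict S).prod (volume.restrict (Ioo 0 h))) := by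
    rw [Measure.prod_restrict]
    exact iu'
  have ig2 : Integrable (fun p : ST n => dot (g p) (g p))
      ((volume.restrict S).prod (volume.restrict (Ioo 0 h))) := by
    rw [Measure.prod_restrict]
    exact ig'
  have mg2 : AEStronglyMeasurable g
      ((volume.restrict S).prod (volume.restrict (Ioo 0 h))) := by
    rw [Measure.prod_restrict]
    exact mg
  apply integral_mono_ae iu2.integral_prod_left (ig2.integral_prod_left.const_mul _)
  have h1 := iu2.prod_right_ae
  have h2 := ig2.prod_right_ae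
  have h3 := mg2.prodMk_left
  have h4 : ∀ᵐ q ∂(volume.restrict S), q ∈ S := ae_restrict_mem hSm
  have h5 : ∀ᵐ q ∂(volume.restrict S), q ∈ S →
      ∀ y ∈ Ioo 0 δ, u (q, y) = ∫ s in Ioo 0 y, g (q, s) := ae_restrict_of_ae H.noslip
  filter_upwards [h1, h2, h3, h4, h5] with q k1 k2 k3 k4 k5
  have k6 := k5 k4
  set G := ∫ y in Ioo 0 h, dot (g (q, y)) (g (q, y)) with hG
  have k7 : ∀ y ∈ Ioo 0 h, dot (u (q, y)) (u (q, y)) ≤ h * G := by
    intro y hy
    have hsub2 : Ioo (0 : ℝ) y ⊆ Ioo 0 h := Ioo_subset_Ioo le_rfl hy.2.le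
    rw [k6 y ⟨hy.1, hy.2.trans_le hhδ⟩]
    have k8 : IntegrableOn (fun s => dot (g (q, s)) (g (q, s))) (Ioo 0 y) :=
      IntegrableOn.mono_set k2 hsub2
    refine (dot_integral (g := fun s => g (q, s)) hy.1
      (k3.mono_measure (Measure.restrict_mono hsub2 le_rfl)) k8).trans ?_
    apply mul_le_mul hy.2.le _ (integral_nonneg fun s => dot_nonneg _) hh.le
    exact setIntegral_mono_set k2 (Filter.Eventually.of_forall fun s => dot_nonneg _)
      (Filter.Eventually.of_forall hsub2)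
  have k9 : IntegrableOn (fun _ : ℝ => h * G) (Ioo 0 h) :=
    integrableOn_const (by rw [Real.volume_Ioo]; exact ENNReal.ofReal_ne_top)
  calc ∫ y in Ioo 0 h, dot (u (q, y)) (u (q, y)) ≤ ∫ _ in Ioo 0 h, h * G :=
        setIntegral_mono_on k1 k9 measurableSet_Ioo k7
    _ = h ^ 2 * G := by
        rw [setIntegral_const, Real.volume_real_Ioo_of_le hh.le, sub_zero, smul_eq_mul]
        ring

end Pool.Agent.W5h42.KD
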