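import Pool.Agent.W5h42.KD.Scaled

set_option autoImplicit false

/-! The lower bounds. -/

open MeasureTheory Set

namespace Pool.Agent.W5h42.KD

variable {n : ℕ}

theorem strip_le {δ T : ℝ} {u g : ST n → Z n} {u0 uT : Z n → Z n} (H : WeakTraj n δ T u g u0 uT)
    {h : ℝ} (hh : 0 < h) (hhδ : h ≤ δ) :
    ∫ p in dom n T δ (h / 2) h, dot (u p) (u p) ≤
      h ^ 2 * ∫ p in dom n T δ 0 h, dot (g p) (g p) := by
  refine le_trans ?_ (hardy H hh hhδ)
  apply setIntegral_mono_set (H.sq_u.mono_set (dom_mono le_rfl hhδ))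
    (Filter.Eventually.of_forall fun p => dot_nonneg _)
    (Filter.Eventually.of_forall (dom_mono (by positivity) le_rfl))

theorem strip_nonneg (T δ a b : ℝ) (u : ST n → Z n) :
    0 ≤ ∫ p in dom n T δ a b, dot (u p) (u p) := integral_nonneg fun p => dot_nonneg _

/-- part 1 -/
theorem dissip (n : ℕ) : ∃ c : ℝ, 0 < c ∧ ∀ (i : Fin n) {δ T h a : ℝ}, 0 < T → 0 < h → h ≤ δ →
    0 < a → ∀ {u g : ST n → Z n} {u0 : Z n → Z n}, WeakTraj n δ T u g u0 0 →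
    VortGE δ i a u0 →
    c * (a ^ 2 * h ^ 7 * δ ^ n) ≤ (a * h ^ 4 + T) * ∫ p in dom n T δ (h / 2) h, dot (u p) (u p) ∧
    c * (a ^ 2 * h ^ 5 * δ ^ n) ≤ (a * h ^ 4 + T) * ∫ p in dom n T δ 0 h, dot (g p) (g p) := by
  obtain ⟨C, hC1, hC⟩ := scaled_bounds n
  have hC0 : 0 < C := lt_of_lt_of_le zero_lt_one hC1
  set c0 : ℝ := (1 / 8) ^ (n + 1) with hc0
  have hc0p : 0 < c0 := by positivity
  set N : ℝ := (n : ℝ) + 1 with hN
  have hNp : 0 < N := by positivity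
  set M : ℝ := N * C + N ^ 4 * C ^ 2 * 2 ^ n / (4 * c0) with hM
  have hMp : 0 < M := by positivity
  refine ⟨c0 / (2 * M), by positivity, ?_⟩
  intro i δ T h a hT hh hhδ ha u g u0 H hv
  have hδ : 0 < δ := hh.trans_le hhδ
  have hψ := sb_test (n := n) hδ hh
  obtain ⟨hφ, hdiv, _⟩ := isTest_rot i hψ
  have hsubl : layer n δ (h / 2) h ⊆ layer n δ 0 δ :=
    prod_mono le_rfl (Ioo_subset_Ioo (by positivity) hhδ)
  have hψ' : IsTest (layer n δ 0 δ) (sb n hδ hh) := ⟨hψ.smooth, hψ.compact, hψ.supp.trans hsubl⟩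
  set I := ∫ p in dom n T δ (h / 2) h, dot (u p) (u p) with hI
  have hI0 : 0 ≤ I := strip_nonneg T δ _ _ u
  set A : ℝ := N * (C * h⁻¹ ^ 2) with hA
  set B : ℝ := N * (N * (C * h⁻¹ ^ 3)) with hB
  have hBp : 0 < B := by positivity
  set ε : ℝ := B ^ 2 * T * 2 ^ n / (4 * a * c0) with hε
  have hεp : 0 < ε := by positivity
  have k1 := core H (a := h / 2) (b := h) (A := A) (B := B) (ε := ε) (by positivity) hhδ hεp hφ hdiv
    (fun v z => by
      have h1 := abs_dot_le v (pd v (rot i (sb n hδ hh)) z)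
      have h2 := (hC hδ hh hhδ i z).2.1 v
      calc |dot v (pd v (rot i (sb n hδ hh)) z)| ≤ N * (‖v‖ * ‖pd v (rot i (sb n hδ hh)) z‖) := h1
        _ ≤ N * (‖v‖ * (C * h⁻¹ ^ 2 * ‖v‖)) := by gcongr
        _ = A * ‖v‖ ^ 2 := by rw [hA]; ring
        _ ≤ A * dot v v := by
            gcongr
            exact norm_sq_le v)
    (fun v z => by
      have h1 := abs_dot_le v (lap (rot i (sb n hδ hh)) z)
      have h2 := (hC hδ hh hhδ i z).2.2.1
      calc |dot v (lap (rot i (sb n hδ hh)) z)| ≤ N * (‖v‖ * ‖lap (rot i (sb n hδ hh)) z‖) := h1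
        _ ≤ N * (Real.sqrt (dot v v) * (N * (C * h⁻¹ ^ 3))) := by
            gcongr
            exact norm_le_sqrt v
        _ = B * Real.sqrt (dot v v) := by rw [hB]; ring)
  have k2 := hv _ hψ' (sb_nonneg hδ hh)
  have k3 := sb_integral (n := n) hδ hh hhδ
  rw [volume_dom hT.le hδ (by linarith)] at k1
  have k4 : B ^ 2 / (4 * ε) * (T * (2 * δ) ^ n * (h - h / 2)) = a * c0 * (h * δ ^ n) / 2 := by
    rw [hε, mul_pow]
    field_simp
    ring
  rw [k4] at k1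
  have k5 : a * (c0 * (h * δ ^ n)) ≤ (A + ε) * I + a * c0 * (h * δ ^ n) / 2 :=
    calc a * (c0 * (h * δ ^ n)) ≤ a * ∫ z in layer n δ 0 δ, sb n hδ hh z := by gcongr
      _ ≤ ∫ z in layer n δ 0 δ, dot (u0 z) (rot i (sb n hδ hh) z) := k2
      _ ≤ |∫ z in layer n δ 0 δ, dot (u0 z) (rot i (sb n hδ hh) z)| := le_abs_self _
      _ ≤ _ := k1
  have k6 : a * c0 * (h * δ ^ n) / 2 ≤ (A + ε) * I := by linarith
  have k7 : a * h ^ 6 * (A + ε) ≤ M * (a * h ^ 4 + T) := by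
    have e1 : a * h ^ 6 * (A + ε) = N * C * (a * h ^ 4) + N ^ 4 * C ^ 2 * 2 ^ n / (4 * c0) * T := by
      rw [hε, hB, hA]
      field_simp
    rw [e1, hM]
    have e2 : 0 ≤ N * C * T := by positivity
    have e3 : 0 ≤ N ^ 4 * C ^ 2 * 2 ^ n / (4 * c0) * (a * h ^ 4) := by positivity
    nlinarith
  have k8 : c0 / 2 * (a ^ 2 * h ^ 7 * δ ^ n) ≤ M * (a * h ^ 4 + T) * I :=
    calc c0 / 2 * (a ^ 2 * h ^ 7 * δ ^ n) = a * h ^ 6 * (a * c0 * (h * δ ^ n) / 2) := by ring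
      _ ≤ a * h ^ 6 * ((A + ε) * I) := by gcongr
      _ = a * h ^ 6 * (A + ε) * I := by ring
      _ ≤ M * (a * h ^ 4 + T) * I := by gcongr
  have k9 : c0 / (2 * M) * (a ^ 2 * h ^ 7 * δ ^ n) ≤ (a * h ^ 4 + T) * I := by
    have e1 : c0 / (2 * M) * (a ^ 2 * h ^ 7 * δ ^ n) =
        (c0 / 2 * (a ^ 2 * h ^ 7 * δ ^ n)) / M := by
      field_simp
    rw [e1, div_le_iff₀ hMp]
    linarith
  refine ⟨k9, ?_⟩
  have k10 := strip_le H hh hhδ
  have k11 : h ^ 2 * (c0 / (2 * M) * (a ^ 2 * h ^ 5 * δ ^ n)) ≤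
      h ^ 2 * ((a * h ^ 4 + T) * ∫ p in dom n T δ 0 h, dot (g p) (g p)) :=
    calc h ^ 2 * (c0 / (2 * M) * (a ^ 2 * h ^ 5 * δ ^ n)) =
          c0 / (2 * M) * (a ^ 2 * h ^ 7 * δ ^ n) := by ring
      _ ≤ (a * h ^ 4 + T) * I := k9
      _ ≤ (a * h ^ 4 + T) * (h ^ 2 * ∫ p in dom n T δ 0 h, dot (g p) (g p)) := by gcongr
      _ = _ := by ring
  exact le_of_mul_le_mul_left k11 (by positivity)

/-- part 3 -/
theorem qual {δ h : ℝ} (hh : 0 < h) (hhδ : h ≤ δ) {u0 φ : Z n → Z n}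
    (hφ : IsTest (layer n δ 0 h) φ) (hdiv : ∀ z, div φ z = 0)
    (h0 : ∫ z in layer n δ 0 δ, dot (u0 z) (φ z) ≠ 0) :
    ∃ c : ℝ, 0 < c ∧ ∀ T : ℝ, 0 < T → T ≤ 1 → ∀ u g : ST n → Z n, WeakTraj n δ T u g u0 0 →
      c ≤ ∫ p in dom n T δ 0 h, dot (g p) (g p) := by
  have hδ : 0 < δ := hh.trans_le hhδ
  set N : ℝ := (n : ℝ) + 1 with hN
  have hNp : 0 < N := by positivity
  obtain ⟨C1, l1⟩ := ((hφ.smooth.fderiv_right (m := (⊤ : ℕ∞)) (by simp)).continuous).bounded_above_of_compact_support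
    (hφ.compact.fderiv ℝ)
  have hC1 : 0 ≤ C1 := (norm_nonneg _).trans (l1 0)
  have h2 : ∀ a : Z n, ∃ C : ℝ, 0 ≤ C ∧ ∀ z, ‖pd a (pd a φ) z‖ ≤ C := fun a =>
    ((hφ.pd a).pd a).bound
  choose C2 hC2 l2 using h2
  obtain ⟨M, hM⟩ := (((finite_range (ex : Fin n → Z n)).insert ey).image C2).bddAbove
  have hM0 : 0 ≤ M := (hC2 _).trans (hM (mem_image_of_mem C2 (mem_insert _ _)))
  set m := |∫ z in layer n δ 0 δ, dot (u0 z) (φ z)| with hm
  have hmp : 0 < m := abs_pos.2 h0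
  set A : ℝ := N * C1 with hA
  set B : ℝ := N * (N * M) with hB
  have hA0 : 0 ≤ A := by positivity
  have hB0 : 0 ≤ B := by positivity
  set V : ℝ := (2 * δ) ^ n * h with hV
  have hVp : 0 < V := by positivity
  set ε : ℝ := B ^ 2 * V / (2 * m) + 1 with hε
  have hεp : 0 < ε := by positivity
  refine ⟨m / (2 * ((A + ε) * h ^ 2)), by positivity, fun T hT hT1 u g H => ?_⟩
  have k1 := core H (a := 0) (b := h) (A := A) (B := B) (ε := ε) le_rfl hhδ hεp hφ hdiv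
    (fun v z => by
      have h1 := abs_dot_le v (pd v φ z)
      calc |dot v (pd v φ z)| ≤ N * (‖v‖ * ‖pd v φ z‖) := h1
        _ ≤ N * (‖v‖ * (C1 * ‖v‖)) := by
            gcongr
            exact ((fderiv ℝ φ z).le_opNorm v).trans (by gcongr; exact l1 z)
        _ = A * ‖v‖ ^ 2 := by rw [hA]; ring
        _ ≤ A * dot v v := by
            gcongr
            exact norm_sq_le v)
    (fun v z => by
      have h1 := abs_dot_le v (lap φ z)
      have h3 : ‖lap φ z‖ ≤ N * M := by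
        apply norm_lap_le
        intro a ha
        exact (l2 a z).trans (hM (mem_image_of_mem C2 ha))
      calc |dot v (lap φ z)| ≤ N * (‖v‖ * ‖lap φ z‖) := h1
        _ ≤ N * (Real.sqrt (dot v v) * (N * M)) := by
            gcongr
            exact norm_le_sqrt v
        _ = B * Real.sqrt (dot v v) := by rw [hB]; ring)
  rw [volume_dom hT.le hδ hh.le, sub_zero] at k1
  have k2 : B ^ 2 / (4 * ε) * (T * (2 * δ) ^ n * h) ≤ m / 2 := by
    have e1 : B ^ 2 * V ≤ 2 * m * ε := by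
      rw [hε]
      have : 2 * m * (B ^ 2 * V / (2 * m) + 1) = B ^ 2 * V + 2 * m := by
        field_simp
      rw [this]
      linarith
    calc B ^ 2 / (4 * ε) * (T * (2 * δ) ^ n * h) ≤ B ^ 2 / (4 * ε) * (1 * (2 * δ) ^ n * h) := by
          gcongr
      _ = (B ^ 2 * V) / (4 * ε) := by rw [hV]; ring
      _ ≤ (2 * m * ε) / (4 * ε) := by gcongr
      _ = m / 2 := by field_simp; ring
  have k3 : ∫ p in dom n T δ 0 h, dot (u p) (u p) ≤
      h ^ 2 * ∫ p in dom n T δ 0 h, dot (g p) (g p) := hardy H hh hhδ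
  set D := ∫ p in dom n T δ 0 h, dot (g p) (g p) with hD
  have k4 : m / 2 ≤ (A + ε) * (h ^ 2 * D) := by
    have : (A + ε) * (∫ p in dom n T δ 0 h, dot (u p) (u p)) ≤ (A + ε) * (h ^ 2 * D) := by
      gcongr
    linarith
  rw [div_le_iff₀ (by positivity)]
  nlinarith

end Pool.Agent.W5h42.KD
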