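import Pool.Agent.W5h42.KD.Main

set_option autoImplicit false

/-! The lower bound for trajectories with bounded vorticity. -/

open MeasureTheory Set

namespace Pool.Agent.W5h42.KD

variable {n : ℕ}

theorem sum_single' (b : Fin n → ℝ) (i : Fin n) (c : ℝ) :
    ∑ x, b x * (Pi.single i c : Fin n → ℝ) x = b i * c := by
  rw [Finset.sum_eq_single i]
  · rw [Pi.single_eq_same]
  · intro j _ hj
    rw [Pi.single_eq_of_ne hj, mul_zero]
  · intro hi
    exact absurd (Finset.mem_univ i) hi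

theorem dot_ex' (v : Z n) (i : Fin n) : dot v (ex i) = v.1 i := by
  unfold dot ex
  simp only [mul_zero, add_zero]
  rw [sum_single', mul_one]

theorem dot_ey' (v : Z n) : dot v (ey : Z n) = v.2 := by
  unfold dot ey
  simp

theorem dot_rot (i : Fin n) (f : Z n → ℝ) (v z : Z n) :
    dot v (rot i f z) = dot v (ex i) * pd ey f z - dot v ey * pd (ex i) f z := by
  rw [dot_ex', dot_ey']
  unfold dot rot
  simp only
  rw [sum_single']
  ring

theorem dot_ex (i : Fin n) : dot (ex i) (ex i : Z n) = 1 := by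
  rw [dot_ex']
  unfold ex
  simp

theorem continuous_dot : Continuous fun q : Z n × Z n => dot q.1 q.2 := by
  unfold dot
  fun_prop

theorem continuous_pos : Continuous (pos : ST n → Z n) := by
  unfold pos
  fun_prop

/-- part 2 -/
theorem rotational (n : ℕ) : ∃ C : ℝ, 0 < C ∧ ∀ (i : Fin n) {δ T h a K : ℝ}, 0 < T → 0 < h →
    h ≤ δ → 0 < a → 0 < K → ∀ {u g : ST n → Z n} {W : ST n → Z n →L[ℝ] Z n} {u0 : Z n → Z n},
    WeakTraj n δ T u g u0 0 → LambTraj n δ T h K u W u0 0 → VortGE δ i a u0 →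
    C * (K * T) ≤ a * h ^ 2 →
    a ^ 2 * h ^ 3 * δ ^ n ≤ C * (K ^ 2 * T) * ∫ p in dom n T δ (h / 2) h, dot (u p) (u p) ∧
    a ^ 2 * h * δ ^ n ≤ C * (K ^ 2 * T) * ∫ p in dom n T δ 0 h, dot (g p) (g p) := by
  obtain ⟨C, hC1, hC⟩ := scaled_bounds n
  have hC0 : 0 < C := lt_of_lt_of_le zero_lt_one hC1
  set c0 : ℝ := (1 / 8) ^ (n + 1) with hc0
  have hc0p : 0 < c0 := by positivity
  set N : ℝ := (n : ℝ) + 1 with hN
  have hNp : 0 < N := by positivity
  set M : ℝ := 2 * N * C * 2 ^ n / c0 + N ^ 2 * C ^ 2 * 2 ^ n / c0 ^ 2 with hM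
  have hMp : 0 < M := by positivity
  refine ⟨M, hMp, ?_⟩
  intro i δ T h a K hT hh hhδ ha hK u g W u0 H L hv hcond
  have hδ : 0 < δ := hh.trans_le hhδ
  have hψ := sb_test (n := n) hδ hh
  obtain ⟨hφ, hdiv, _⟩ := isTest_rot i hψ
  have hsubl : layer n δ (h / 2) h ⊆ layer n δ 0 δ :=
    prod_mono le_rfl (Ioo_subset_Ioo (by positivity) hhδ)
  have hsub : dom n T δ (h / 2) h ⊆ dom n T δ 0 δ := dom_mono (by positivity) hhδ
  set ψ := sb n hδ hh with hψdef
  have hψ' : IsTest (layer n δ 0 δ) ψ := ⟨hψ.smooth, hψ.compact, hψ.supp.trans hsubl⟩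
  have hφ' : IsTest (layer n δ 0 δ) (rot i ψ) := ⟨hφ.smooth, hφ.compact, hφ.supp.trans hsubl⟩
  have hlap : IsTest (layer n δ 0 δ) (lap ψ) ∧ ∀ z, z ∉ layer n δ (h / 2) h → lap ψ z = 0 := by
    have k0 : ∀ z, z ∉ tsupport ψ → lap ψ z = 0 := by
      intro z hz'
      have k2 : ∀ v : Z n, pd v (pd v ψ) z = 0 := fun v => image_eq_zero_of_notMem_tsupport
        (fun hc => hz' (tsupport_pd ψ v (tsupport_pd (pd v ψ) v hc)))
      unfold lap
      rw [Finset.sum_eq_zero fun i _ => k2 _, k2, add_zero]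
    have k1 : tsupport (lap ψ) ⊆ tsupport ψ := by
      apply closure_minimal _ (isClosed_tsupport ψ)
      intro z hz
      by_contra hc
      exact hz (k0 z hc)
    refine ⟨⟨?_, hψ.compact.of_isClosed_subset (isClosed_tsupport _) k1,
      k1.trans hψ'.supp⟩, fun z hz => k0 z fun hc => hz (hψ.supp hc)⟩
    apply ContDiff.add
    · exact ContDiff.sum fun j _ => contDiff_pd (contDiff_pd hψ.smooth _) _
    · exact contDiff_pd (contDiff_pd hψ.smooth _) _
  -- the equation
  have hm := L.momentum _ hφ' hdiv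
  have h0 : ∫ z in layer n δ 0 δ, dot ((0 : Z n → Z n) z) (rot i ψ z) = 0 := by
    have h3 : ∀ z, dot ((0 : Z n → Z n) z) (rot i ψ z) = 0 := fun z => by simp [dot]
    simp only [h3, integral_zero]
  rw [h0, zero_sub] at hm
  -- the two parts
  set f1 : ST n → ℝ := fun p => dot (W p (u p)) (rot i ψ (pos p)) with hf1
  set f2 : ST n → ℝ := fun p => dot (u p) (lap (rot i ψ) (pos p)) with hf2
  have hout : ∀ p ∈ dom n T δ 0 δ \ dom n T δ (h / 2) h, pos p ∉ layer n δ (h / 2) h := by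
    rintro p ⟨hp1, hp2⟩ hc
    exact hp2 ⟨⟨hp1.1.1, hc.1⟩, hc.2⟩
  have hrot0 : ∀ z, z ∉ layer n δ (h / 2) h → rot i ψ z = 0 := fun z hz =>
    rot_zero i fun hc => hz (hψ.supp hc)
  have hlr0 : ∀ z, z ∉ layer n δ (h / 2) h → lap (rot i ψ) z = 0 := by
    intro z hz
    have hz' : z ∉ tsupport (rot i ψ) := fun hc => hz (hφ.supp hc)
    have k2 : ∀ v : Z n, pd v (pd v (rot i ψ)) z = 0 := fun v => image_eq_zero_of_notMem_tsupport
      (fun hc => hz' (tsupport_pd _ v (tsupport_pd (pd v (rot i ψ)) v hc)))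
    unfold lap
    rw [Finset.sum_eq_zero fun i _ => k2 _, k2, add_zero]
  have e1 : ∫ p in dom n T δ 0 δ, (f2 p - f1 p) = ∫ p in dom n T δ (h / 2) h, (f2 p - f1 p) := by
    apply setIntegral_eq_of_subset_of_forall_sdiff_eq_zero (measurableSet_dom T δ 0 δ) hsub
    intro p hp
    simp only [hf1, hf2]
    rw [hrot0 _ (hout p hp), hlr0 _ (hout p hp)]
    simp [dot]
  have e2 : ∫ p in dom n T δ 0 δ, f2 p = ∫ p in dom n T δ (h / 2) h, f2 p := by
    apply setIntegral_eq_of_subset_of_forall_sdiff_eq_zero (measurableSet_dom T δ 0 δ) hsub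
    intro p hp
    simp only [hf2]
    rw [hlr0 _ (hout p hp)]
    simp [dot]
  have hms : ∀ᵐ p ∂(volume.restrict (dom n T δ (h / 2) h)), p ∈ dom n T δ (h / 2) h :=
    ae_restrict_mem (measurableSet_dom T δ _ _)
  have hbd : ∀ᵐ p ∂(volume.restrict (dom n T δ (h / 2) h)), p ∈ dom n T δ (h / 2) h →
      ∀ v : Z n, dot (W p v) (W p v) ≤ K ^ 2 * dot v v := ae_restrict_of_ae L.bound
  have hsq := (aestronglyMeasurable_sqrt H).mono_set hsub
  have hu : AEStronglyMeasurable u (volume.restrict (dom n T δ (h / 2) h)) :=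
    H.meas_u.mono_measure (Measure.restrict_mono hsub le_rfl)
  have hW : AEStronglyMeasurable W (volume.restrict (dom n T δ (h / 2) h)) :=
    L.meas.mono_measure (Measure.restrict_mono hsub le_rfl)
  have hfin : IntegrableOn (fun _ : ST n => (1 : ℝ)) (dom n T δ (h / 2) h) :=
    integrableOn_const (volume_dom_lt T δ _ _).ne
  set B : ℝ := N * K * (C * h⁻¹) with hB
  have hBp : 0 < B := by positivity
  have b1 : ∀ᵐ p ∂(volume.restrict (dom n T δ (h / 2) h)),
      |f1 p| ≤ B * Real.sqrt (dot (u p) (u p)) := by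
    filter_upwards [hms, hbd] with p hp1 hp2
    have h1 := abs_dot_le (W p (u p)) (rot i ψ (pos p))
    have h2 := (hC hδ hh hhδ i (pos p)).1
    have h3 : ‖W p (u p)‖ ≤ K * Real.sqrt (dot (u p) (u p)) := by
      refine (norm_le_sqrt _).trans ?_
      calc Real.sqrt (dot (W p (u p)) (W p (u p))) ≤ Real.sqrt (K ^ 2 * dot (u p) (u p)) :=
            Real.sqrt_le_sqrt (hp2 hp1 _)
        _ = K * Real.sqrt (dot (u p) (u p)) := by
            rw [Real.sqrt_mul (sq_nonneg K), Real.sqrt_sq hK.le]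
    calc |f1 p| ≤ N * (‖W p (u p)‖ * ‖rot i ψ (pos p)‖) := h1
      _ ≤ N * ((K * Real.sqrt (dot (u p) (u p))) * (C * h⁻¹)) := by gcongr
      _ = B * Real.sqrt (dot (u p) (u p)) := by rw [hB]; ring
  have hdom1 : IntegrableOn (fun p => Real.sqrt (dot (u p) (u p)) ^ 2 + 1)
    (dom n T δ (h / 2) h) := hsq.add hfin
  have i1 : IntegrableOn f1 (dom n T δ (h / 2) h) := by
    have hmeas : AEStronglyMeasurable f1 (volume.restrict (dom n T δ (h / 2) h)) := by
      have m1 : AEStronglyMeasurable (fun p => W p (u p))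
          (volume.restrict (dom n T δ (h / 2) h)) :=
        isBoundedBilinearMap_apply.continuous.comp_aestronglyMeasurable (hW.prodMk hu)
      have m2 : AEStronglyMeasurable (fun p => rot i ψ (pos p))
          (volume.restrict (dom n T δ (h / 2) h)) :=
        (hφ.smooth.continuous.comp continuous_pos).aestronglyMeasurable
      exact continuous_dot.comp_aestronglyMeasurable (m1.prodMk m2)
    refine Integrable.mono' (hdom1.const_mul B) hmeas ?_
    filter_upwards [b1] with p hp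
    rw [Real.norm_eq_abs]
    refine hp.trans (mul_le_mul_of_nonneg_left ?_ hBp.le)
    nlinarith [sq_nonneg (Real.sqrt (dot (u p) (u p)) - 1), Real.sqrt_nonneg (dot (u p) (u p))]
  have i2 : IntegrableOn f2 (dom n T δ (h / 2) h) := by
    have hmeas : AEStronglyMeasurable f2 (volume.restrict (dom n T δ (h / 2) h)) := by
      have m2 : AEStronglyMeasurable (fun p => lap (rot i ψ) (pos p))
          (volume.restrict (dom n T δ (h / 2) h)) := by
        have hc : Continuous (lap (rot i ψ)) := by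
          apply ContDiff.continuous (𝕜 := ℝ) (n := (⊤ : ℕ∞))
          apply ContDiff.add
          · exact ContDiff.sum fun j _ => contDiff_pd (contDiff_pd hφ.smooth _) _
          · exact contDiff_pd (contDiff_pd hφ.smooth _) _
        exact (hc.comp continuous_pos).aestronglyMeasurable
      exact continuous_dot.comp_aestronglyMeasurable (hu.prodMk m2)
    refine Integrable.mono' (hdom1.const_mul (N * (N * (C * h⁻¹ ^ 3)))) hmeas
      (Filter.Eventually.of_forall fun p => ?_)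
    have h1 := abs_dot_le (u p) (lap (rot i ψ) (pos p))
    have h2 := (hC hδ hh hhδ i (pos p)).2.2.1
    rw [Real.norm_eq_abs]
    calc |f2 p| ≤ N * (‖u p‖ * ‖lap (rot i ψ) (pos p)‖) := h1
      _ ≤ N * (Real.sqrt (dot (u p) (u p)) * (N * (C * h⁻¹ ^ 3))) := by
          gcongr
          exact norm_le_sqrt _
      _ = (N * (N * (C * h⁻¹ ^ 3))) * Real.sqrt (dot (u p) (u p)) := by ring
      _ ≤ _ := by
          apply mul_le_mul_of_nonneg_left _ (by positivity)
          nlinarith [sq_nonneg (Real.sqrt (dot (u p) (u p)) - 1),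
            Real.sqrt_nonneg (dot (u p) (u p))]
  -- the viscous part
  set V : ℝ := volume.real (dom n T δ (h / 2) h) with hV
  have hVeq : V = T * (2 * δ) ^ n * (h - h / 2) := volume_dom hT.le hδ (by linarith)
  have e3 : ∫ p in dom n T δ 0 δ, f2 p =
      ∫ p in dom n T δ (h / 2) h, lap ψ (pos p) * dot (W p (ex i)) ey := by
    have r1 := L.rotation (fun _ => 1) (lap ψ) continuous_const hlap.1 (ex i) ey
    simp only [one_mul] at r1
    have r2 : ∫ p in dom n T δ 0 δ, lap ψ (pos p) * dot (W p (ex i)) ey =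
        ∫ p in dom n T δ (h / 2) h, lap ψ (pos p) * dot (W p (ex i)) ey := by
      apply setIntegral_eq_of_subset_of_forall_sdiff_eq_zero (measurableSet_dom T δ 0 δ) hsub
      intro p hp
      rw [hlap.2 _ (hout p hp), zero_mul]
    rw [← r2, r1]
    congr 1
    funext p
    simp only [hf2]
    rw [lap_rot i hψ.smooth, dot_rot]
  have b2 : |∫ p in dom n T δ (h / 2) h, lap ψ (pos p) * dot (W p (ex i)) ey| ≤
      N * (C * h⁻¹ ^ 2) * K * V := by
    have h1 := norm_setIntegral_le_of_norm_le_const_ae (μ := volume)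
      (f := fun p : ST n => lap ψ (pos p) * dot (W p (ex i)) ey) (C := N * (C * h⁻¹ ^ 2) * K)
      (s := dom n T δ (h / 2) h) (volume_dom_lt T δ _ _) ?_
    · rwa [Real.norm_eq_abs] at h1
    · filter_upwards [hms, hbd] with p hp1 hp2
      rw [Real.norm_eq_abs, abs_mul]
      have h2 := (hC hδ hh hhδ i (pos p)).2.2.2
      have h3 : |dot (W p (ex i)) ey| ≤ K := by
        have e4 : dot (W p (ex i)) (ey : Z n) = (W p (ex i)).2 := by
          unfold dot ey
          simp
        rw [e4]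
        apply abs_le_of_sq_le_sq _ hK.le
        have h4 := hp2 hp1 (ex i)
        rw [dot_ex, mul_one] at h4
        exact (sq_snd_le _).trans h4
      exact mul_le_mul h2 h3 (abs_nonneg _) (by positivity)
  -- conclusion
  set I := ∫ p in dom n T δ (h / 2) h, dot (u p) (u p) with hI
  have hI0 : 0 ≤ I := strip_nonneg T δ _ _ u
  set ε : ℝ := N ^ 2 * K ^ 2 * C ^ 2 * T * 2 ^ n / (2 * a * c0 * h ^ 2) with hε
  have hεp : 0 < ε := by positivity
  have q1 := quad_bound (A := 0) (B := B) (ε := ε) (F := f1) hεp hsq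
    (by filter_upwards [b1] with p hp; linarith)
  simp only [Real.sq_sqrt (dot_nonneg _), zero_add] at q1
  have k2 := hv _ hψ' (sb_nonneg hδ hh)
  have k3 := sb_integral (n := n) hδ hh hhδ
  have k5 : a * (c0 * (h * δ ^ n)) ≤ ε * I + B ^ 2 / (4 * ε) * V + N * (C * h⁻¹ ^ 2) * K * V := by
    have l1 : ∫ z in layer n δ 0 δ, dot (u0 z) (rot i ψ z) =
        (∫ p in dom n T δ (h / 2) h, f1 p) - ∫ p in dom n T δ (h / 2) h, f2 p := by
      have l2 : ∫ p in dom n T δ (h / 2) h, (f2 p - f1 p) =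
        (∫ p in dom n T δ (h / 2) h, f2 p) - ∫ p in dom n T δ (h / 2) h, f1 p :=
        integral_sub i2 i1
      have l3 : -∫ z in layer n δ 0 δ, dot (u0 z) (rot i ψ z) =
        ∫ p in dom n T δ 0 δ, (f2 p - f1 p) := hm
      rw [e1, l2] at l3
      linarith
    rw [← e2, e3] at l1
    calc a * (c0 * (h * δ ^ n)) ≤ a * ∫ z in layer n δ 0 δ, ψ z := by gcongr
      _ ≤ ∫ z in layer n δ 0 δ, dot (u0 z) (rot i ψ z) := k2
      _ = _ := l1
      _ ≤ |∫ p in dom n T δ (h / 2) h, f1 p| +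
          |∫ p in dom n T δ (h / 2) h, lap ψ (pos p) * dot (W p (ex i)) ey| :=
          (le_abs_self _).trans (abs_sub _ _)
      _ ≤ (ε * I + B ^ 2 / (4 * ε) * V) + N * (C * h⁻¹ ^ 2) * K * V := add_le_add q1 b2
  have k6 : B ^ 2 / (4 * ε) * V = a * c0 * (h * δ ^ n) / 4 := by
    rw [hVeq, hε, hB, mul_pow (2 : ℝ) δ n]
    field_simp
    ring
  have k7 : N * (C * h⁻¹ ^ 2) * K * V ≤ a * c0 * (h * δ ^ n) / 4 := by
    have l1 : 2 * N * C * 2 ^ n / c0 * (K * T) ≤ a * h ^ 2 := by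
      refine le_trans ?_ hcond
      gcongr
      rw [hM]
      have : 0 ≤ N ^ 2 * C ^ 2 * 2 ^ n / c0 ^ 2 := by positivity
      linarith
    have l2 : 2 * N * C * 2 ^ n * (K * T) ≤ a * c0 * h ^ 2 := by
      have l3 : c0 * (2 * N * C * 2 ^ n / c0 * (K * T)) ≤ c0 * (a * h ^ 2) := by gcongr
      have l4 : c0 * (2 * N * C * 2 ^ n / c0 * (K * T)) = 2 * N * C * 2 ^ n * (K * T) := by
        field_simp
      rw [l4] at l3
      linarith
    have l5 : N * (C * h⁻¹ ^ 2) * K * V =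
        (2 * N * C * 2 ^ n * (K * T)) * (h⁻¹ * δ ^ n / 4) := by
      rw [hVeq, mul_pow (2 : ℝ) δ n]
      field_simp
      ring
    have l6 : a * c0 * (h * δ ^ n) / 4 = (a * c0 * h ^ 2) * (h⁻¹ * δ ^ n / 4) := by
      field_simp
    rw [l5, l6]
    gcongr
  have k8 : a * c0 * (h * δ ^ n) / 2 ≤ ε * I := by linarith
  have k9 : a ^ 2 * h ^ 3 * δ ^ n ≤ M * (K ^ 2 * T) * I := by
    have l1 : a ^ 2 * h ^ 3 * δ ^ n =
        (a * c0 * (h * δ ^ n) / 2) * (2 * a * h ^ 2 / c0) := by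
      field_simp
    have l2 : ε * I * (2 * a * h ^ 2 / c0) = N ^ 2 * C ^ 2 * 2 ^ n / c0 ^ 2 * (K ^ 2 * T) * I := by
      rw [hε]
      field_simp
    calc a ^ 2 * h ^ 3 * δ ^ n = (a * c0 * (h * δ ^ n) / 2) * (2 * a * h ^ 2 / c0) := l1
      _ ≤ ε * I * (2 * a * h ^ 2 / c0) := by gcongr
      _ = N ^ 2 * C ^ 2 * 2 ^ n / c0 ^ 2 * (K ^ 2 * T) * I := l2
      _ ≤ M * (K ^ 2 * T) * I := by
          gcongr
          rw [hM]
          have : 0 ≤ 2 * N * C * 2 ^ n / c0 := by positivity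
          linarith
  refine ⟨k9, ?_⟩
  have k10 := strip_le H hh hhδ
  have k11 : h ^ 2 * (a ^ 2 * h * δ ^ n) ≤
      h ^ 2 * (M * (K ^ 2 * T) * ∫ p in dom n T δ 0 h, dot (g p) (g p)) :=
    calc h ^ 2 * (a ^ 2 * h * δ ^ n) = a ^ 2 * h ^ 3 * δ ^ n := by ring
      _ ≤ M * (K ^ 2 * T) * I := k9
      _ ≤ M * (K ^ 2 * T) * (h ^ 2 * ∫ p in dom n T δ 0 h, dot (g p) (g p)) := by gcongr
      _ = _ := by ring
  exact le_of_mul_le_mul_left k11 (by positivity)

end Pool.Agent.W5h42.KD
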