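import Pool.Agent.W5h42.KD.Bump

set_option autoImplicit false

/-! Bounds for the derivatives of the scaled bump function and of its solenoidal field. -/

open MeasureTheory Set

namespace Pool.Agent.W5h42.KD

variable {n : ℕ}

/-- the unit vectors -/
def Bas (n : ℕ) : Set (Z n) := insert ey (range ex)

theorem ey_mem : (ey : Z n) ∈ Bas n := mem_insert _ _

theorem ex_mem (i : Fin n) : (ex i : Z n) ∈ Bas n := mem_insert_of_mem _ (mem_range_self i)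

theorem bas_scale {δ h : ℝ} (hδ : 0 < δ) (hh : 0 < h) (hhδ : h ≤ δ) {w : Z n} (hw : w ∈ Bas n) :
    ∃ κ : ℝ, 0 ≤ κ ∧ κ ≤ h⁻¹ ∧
      sc n δ⁻¹ h⁻¹ (inv_ne_zero hδ.ne') (inv_ne_zero hh.ne') w = κ • w := by
  rcases hw with rfl | ⟨i, rfl⟩
  · exact ⟨h⁻¹, inv_nonneg.2 hh.le, le_rfl, sc_ey _ _⟩
  · exact ⟨δ⁻¹, inv_nonneg.2 hδ.le, inv_anti₀ hh hhδ, sc_ex _ _ i⟩

theorem pd_scaled {δ h : ℝ} (hδ : 0 < δ) (hh : 0 < h) {f : Z n → ℝ} (hf : Differentiable ℝ f)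
    (c : ℝ) (v z : Z n) :
    pd v (fun z => c * f (sc n δ⁻¹ h⁻¹ (inv_ne_zero hδ.ne') (inv_ne_zero hh.ne') z)) z =
      c * pd (sc n δ⁻¹ h⁻¹ (inv_ne_zero hδ.ne') (inv_ne_zero hh.ne') v) f
        (sc n δ⁻¹ h⁻¹ (inv_ne_zero hδ.ne') (inv_ne_zero hh.ne') z) := by
  have h1 : Differentiable ℝ
      (fun z => f (sc n δ⁻¹ h⁻¹ (inv_ne_zero hδ.ne') (inv_ne_zero hh.ne') z)) :=
    hf.comp (sc n δ⁻¹ h⁻¹ (inv_ne_zero hδ.ne') (inv_ne_zero hh.ne')).differentiable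
  have h2 := pd_const_smul c h1 v z
  rw [pd_comp _ _ hf] at h2
  exact h2

/-- `rot` commutes with derivatives -/
theorem pd_rot (i : Fin n) {ψ : Z n → ℝ} (hf : ContDiff ℝ (⊤ : ℕ∞) ψ) (v : Z n) :
    pd v (rot i ψ) = rot i (pd v ψ) := by
  funext z
  rw [hasFDerivAt_rot i hf, pd_comm hf v ey, pd_comm hf v (ex i)]
  rfl

theorem norm_rot_le (i : Fin n) (ψ : Z n → ℝ) (z : Z n) {M : ℝ} (hM : 0 ≤ M)
    (h1 : |pd ey ψ z| ≤ M) (h2 : |pd (ex i) ψ z| ≤ M) : ‖rot i ψ z‖ ≤ M := by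
  unfold rot
  rw [Prod.norm_def, max_le_iff]
  constructor
  · rw [pi_norm_le_iff_of_nonneg hM]
    intro j
    by_cases hj : j = i
    · subst hj
      simpa using h1
    · simp only [Pi.single_eq_of_ne hj, norm_zero]
      exact hM
  · simpa using h2

theorem norm_lap_le {F : Type} [NormedAddCommGroup F] [NormedSpace ℝ F] {f : Z n → F} {z : Z n}
    {M : ℝ} (h1 : ∀ a ∈ Bas n, ‖pd a (pd a f) z‖ ≤ M) : ‖lap f z‖ ≤ (n + 1) * M := by
  unfold lap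
  calc ‖∑ i, pd (ex i) (pd (ex i) f) z + pd ey (pd ey f) z‖
      ≤ ‖∑ i, pd (ex i) (pd (ex i) f) z‖ + ‖pd ey (pd ey f) z‖ := norm_add_le _ _
    _ ≤ ∑ i : Fin n, ‖pd (ex i) (pd (ex i) f) z‖ + ‖pd ey (pd ey f) z‖ := by
        gcongr
        exact norm_sum_le _ _
    _ ≤ ∑ _i : Fin n, M + M := by
        gcongr with i
        · exact h1 _ (ex_mem i)
        · exact h1 _ ey_mem
    _ = (n + 1) * M := by
        rw [Finset.sum_const, Finset.card_univ, Fintype.card_fin, nsmul_eq_mul]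
        ring

/-- `rot` commutes with the Laplacian -/
theorem lap_rot (i : Fin n) {ψ : Z n → ℝ} (hf : ContDiff ℝ (⊤ : ℕ∞) ψ) (z : Z n) :
    lap (rot i ψ) z = rot i (lap ψ) z := by
  have hd : ∀ a : Z n, Differentiable ℝ (pd a (pd a ψ)) := fun a =>
    (contDiff_pd (contDiff_pd hf a) a).differentiable (by simp)
  have h1 : ∀ a : Z n, pd a (pd a (rot i ψ)) z = rot i (pd a (pd a ψ)) z := by
    intro a
    rw [pd_rot i hf, pd_rot i (contDiff_pd hf a)]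
  have h2 : ∀ w : Z n, pd w (lap ψ) z =
      ∑ j, pd w (pd (ex j) (pd (ex j) ψ)) z + pd w (pd ey (pd ey ψ)) z := by
    intro w
    have h3 : HasFDerivAt (lap ψ) (∑ j : Fin n, fderiv ℝ (pd (ex j) (pd (ex j) ψ)) z +
        fderiv ℝ (pd ey (pd ey ψ)) z) z := by
      apply HasFDerivAt.add
      · exact HasFDerivAt.fun_sum fun j _ => (hd (ex j) z).hasFDerivAt
      · exact (hd ey z).hasFDerivAt
    have h4 : pd w (lap ψ) z = fderiv ℝ (lap ψ) z w := rfl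
    rw [h4, h3.fderiv]
    simp [pd]
  have h5 : lap (rot i ψ) z = ∑ j, rot i (pd (ex j) (pd (ex j) ψ)) z +
      rot i (pd ey (pd ey ψ)) z := by
    have h6 : lap (rot i ψ) z = ∑ j, pd (ex j) (pd (ex j) (rot i ψ)) z +
      pd ey (pd ey (rot i ψ)) z := rfl
    rw [h6, h1, Finset.sum_congr rfl fun j _ => h1 _]
  rw [h5]
  unfold rot
  rw [h2, h2]
  apply Prod.ext
  · simp only [Prod.fst_add, Prod.fst_sum]
    funext j
    by_cases hj : j = i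
    · subst hj
      simp
    · simp [Pi.single_eq_of_ne hj]
  · simp only [Prod.snd_add, Prod.snd_sum]
    simp only [Finset.sum_neg_distrib]
    ring

/-- the bounds for the scaled bump function -/
theorem scaled_bounds (n : ℕ) : ∃ C : ℝ, 1 ≤ C ∧ ∀ {δ h : ℝ} (hδ : 0 < δ) (hh : 0 < h),
    h ≤ δ → ∀ (i : Fin n) (z : Z n),
      ‖rot i (sb n hδ hh) z‖ ≤ C * h⁻¹ ∧
      (∀ v, ‖pd v (rot i (sb n hδ hh)) z‖ ≤ C * h⁻¹ ^ 2 * ‖v‖) ∧
      ‖lap (rot i (sb n hδ hh)) z‖ ≤ (n + 1) * (C * h⁻¹ ^ 3) ∧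
      |lap (sb n hδ hh) z| ≤ (n + 1) * (C * h⁻¹ ^ 2) := by
  obtain ⟨C, hC1, hC⟩ := bump_bounds n
  refine ⟨C, hC1, fun {δ h} hδ hh hhδ i z => ?_⟩
  have hC0 : 0 ≤ C := le_trans zero_le_one hC1
  set S := sc n δ⁻¹ h⁻¹ (inv_ne_zero hδ.ne') (inv_ne_zero hh.ne') with hS
  have hb : ContDiff ℝ (⊤ : ℕ∞) (bump n : Z n → ℝ) := (bump_test n).smooth
  have hsb : ContDiff ℝ (⊤ : ℕ∞) (sb n hδ hh) := (sb_test hδ hh).smooth
  have hi0 : 0 < h⁻¹ := inv_pos.2 hh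
  -- first derivatives
  have d1 : ∀ w ∈ Bas n, ∃ κ : ℝ, 0 ≤ κ ∧ κ ≤ h⁻¹ ∧ S w = κ • w ∧
      pd w (sb n hδ hh) = fun z => κ * pd w (bump n) (S z) := by
    intro w hw
    obtain ⟨κ, k1, k2, k3⟩ := bas_scale hδ hh hhδ hw
    refine ⟨κ, k1, k2, k3, ?_⟩
    funext z
    have h1 := pd_comp (inv_ne_zero hδ.ne') (inv_ne_zero hh.ne') (hb.differentiable (by simp)) w z
    have h2 : pd w (sb n hδ hh) z = pd (S w) (bump n) (S z) := h1
    rw [h2, k3, pd_smul, smul_eq_mul]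
  have d1b : ∀ w ∈ Bas n, ∀ z, |pd w (sb n hδ hh) z| ≤ C * h⁻¹ := by
    intro w hw z
    obtain ⟨κ, k1, k2, k3, k4⟩ := d1 w hw
    rw [k4, abs_mul, abs_of_nonneg k1, mul_comm C]
    exact mul_le_mul k2 (hC w hw (S z)).1 (abs_nonneg _) hi0.le
  -- norm of the scaled vector
  have hSv : ∀ v : Z n, ‖S v‖ ≤ h⁻¹ * ‖v‖ := by
    intro v
    rw [hS, sc_apply, Prod.norm_def, max_le_iff]
    constructor
    · rw [norm_smul, norm_inv, Real.norm_eq_abs, abs_of_pos hδ]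
      exact mul_le_mul (inv_anti₀ hh hhδ) (norm_fst_le v) (norm_nonneg _) hi0.le
    · change |h⁻¹ * v.2| ≤ _
      rw [abs_mul, abs_of_pos hi0]
      exact mul_le_mul_of_nonneg_left (norm_snd_le v) hi0.le
  have d2 : ∀ w ∈ Bas n, ∀ v z, |pd v (pd w (sb n hδ hh)) z| ≤ C * h⁻¹ ^ 2 * ‖v‖ := by
    intro w hw v z
    obtain ⟨κ, k1, k2, k3, k4⟩ := d1 w hw
    rw [k4]
    have h1 := pd_scaled hδ hh ((contDiff_pd hb w).differentiable (by simp)) κ v z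
    have h2 : pd v (fun z => κ * pd w (bump n) (S z)) z =
        κ * pd (S v) (pd w (bump n)) (S z) := h1
    rw [h2, abs_mul, abs_of_nonneg k1]
    have h3 : |pd (S v) (pd w (bump n)) (S z)| ≤ C * (h⁻¹ * ‖v‖) := by
      calc |pd (S v) (pd w (bump n)) (S z)| = ‖fderiv ℝ (pd w (bump n)) (S z) (S v)‖ := rfl
        _ ≤ ‖fderiv ℝ (pd w (bump n)) (S z)‖ * ‖S v‖ := ContinuousLinearMap.le_opNorm _ _
        _ ≤ C * (h⁻¹ * ‖v‖) := mul_le_mul (hC w hw (S z)).2.1 (hSv v) (norm_nonneg _) hC0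
    calc κ * |pd (S v) (pd w (bump n)) (S z)| ≤ h⁻¹ * (C * (h⁻¹ * ‖v‖)) :=
          mul_le_mul k2 h3 (abs_nonneg _) hi0.le
      _ = C * h⁻¹ ^ 2 * ‖v‖ := by ring
  -- second derivatives in unit directions
  have d3 : ∀ a ∈ Bas n, ∃ κ : ℝ, 0 ≤ κ ∧ κ ≤ h⁻¹ ∧
      pd a (pd a (sb n hδ hh)) = fun z => (κ * κ) * pd a (pd a (bump n)) (S z) := by
    intro a ha
    obtain ⟨κ, k1, k2, k3, k4⟩ := d1 a ha
    refine ⟨κ, k1, k2, ?_⟩
    funext z
    rw [k4]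
    have h1 := pd_scaled hδ hh ((contDiff_pd hb a).differentiable (by simp)) κ a z
    have h2 : pd a (fun z => κ * pd a (bump n) (S z)) z =
        κ * pd (S a) (pd a (bump n)) (S z) := h1
    rw [h2, k3, pd_smul, smul_eq_mul]
    ring
  have d4 : ∀ a ∈ Bas n, ∀ w ∈ Bas n, ∀ z,
      |pd w (pd a (pd a (sb n hδ hh))) z| ≤ C * h⁻¹ ^ 3 := by
    intro a ha w hw z
    obtain ⟨κ, k1, k2, k4⟩ := d3 a ha
    obtain ⟨κ', k1', k2', k3'⟩ := bas_scale hδ hh hhδ hw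
    rw [k4]
    have h1 := pd_scaled hδ hh
      ((contDiff_pd (contDiff_pd hb a) a).differentiable (by simp)) (κ * κ) w z
    have h2 : pd w (fun z => (κ * κ) * pd a (pd a (bump n)) (S z)) z =
        (κ * κ) * pd (S w) (pd a (pd a (bump n))) (S z) := h1
    rw [h2, hS, k3', pd_smul, smul_eq_mul, abs_mul, abs_mul, abs_mul, abs_of_nonneg k1,
      abs_of_nonneg k1']
    have h3 := (hC w hw (S z)).2.2 a ha
    calc κ * κ * (κ' * |pd w (pd a (pd a (bump n))) (S z)|)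
        ≤ h⁻¹ * h⁻¹ * (h⁻¹ * C) := by
          apply mul_le_mul (mul_le_mul k2 k2 k1 hi0.le) _ (by positivity) (by positivity)
          exact mul_le_mul k2' h3.2 (abs_nonneg _) hi0.le
      _ = C * h⁻¹ ^ 3 := by ring
  refine ⟨norm_rot_le i _ z (by positivity) (d1b _ ey_mem z) (d1b _ (ex_mem i) z), ?_, ?_, ?_⟩
  · intro v
    rw [pd_rot i hsb]
    apply norm_rot_le i _ z (by positivity)
    · rw [pd_comm hsb]
      exact d2 _ ey_mem v z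
    · rw [pd_comm hsb]
      exact d2 _ (ex_mem i) v z
  · apply norm_lap_le
    intro a ha
    rw [pd_rot i hsb, pd_rot i (contDiff_pd hsb a)]
    exact norm_rot_le i _ z (by positivity) (d4 a ha _ ey_mem z) (d4 a ha _ (ex_mem i) z)
  · apply norm_lap_le (F := ℝ)
    intro a ha
    obtain ⟨κ, k1, k2, k4⟩ := d3 a ha
    rw [k4, Real.norm_eq_abs, abs_mul, abs_mul, abs_of_nonneg k1]
    have h3 := (hC a ha (S z)).2.2 a ha
    calc κ * κ * |pd a (pd a (bump n)) (S z)| ≤ h⁻¹ * h⁻¹ * C :=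
          mul_le_mul (mul_le_mul k2 k2 k1 hi0.le) h3.1 (abs_nonneg _) (by positivity)
      _ = C * h⁻¹ ^ 2 := by ring

end Pool.Agent.W5h42.KD
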